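import Pool.Agent.Q281.Del.Sum
import Pool.Agent.Q281.QC.Cong

set_option autoImplicit false

/-!
# The sum modulo the square of the cyclotomic polynomial
-/

namespace Pool.Agent.Q281.Del

open Finset Pool.Agent.Q281.QC

theorem nr_q : NR q := fun _ hi => q_pow_ne_one hi

theorem nr_qinv : NR q⁻¹ := fun i hi h => by
  rw [inv_pow, inv_eq_one] at h
  exact q_pow_ne_one hi h

theorem gb_mem {K : Type} [Field K] {b : K} (h : NR b) (S : Subring K) (hb : b ∈ S) (n : ℕ) :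
    ∀ k, gb b n k ∈ S := by
  induction n with
  | zero =>
    intro k
    cases k with
    | zero =>
      rw [gb_zero_right]
      exact one_mem S
    | succ k =>
      rw [gb_of_lt b (by omega : 0 < k + 1)]
      exact zero_mem S
  | succ n ih =>
    intro k
    cases k with
    | zero =>
      rw [gb_zero_right]
      exact one_mem S
    | succ k =>
      rw [pascal1 h]
      exact add_mem (ih k) (mul_mem (pow_mem hb _) (ih (k + 1)))

theorem gb_swap {K : Type} [Field K] {b : K} (h : NR b) (m k : ℕ) :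
    gb b m k * gb b (m + k) k = gb b (m + k) (2 * k) * gb b (2 * k) k := by
  rcases le_or_gt k m with hk | hk
  · obtain ⟨l, rfl⟩ := Nat.exists_eq_add_of_le' hk
    rw [gb_add h, gb_add h, show l + k + k = l + 2 * k by ring, gb_add h,
      show gb b (2 * k) k = gb b (k + k) k by rw [two_mul], gb_add h, ← two_mul]
    have h1 := ph_ne h l
    have h2 := ph_ne h k
    have h3 := ph_ne h (2 * k)
    have h4 := ph_ne h (l + k)
    field_simp
  · rw [gb_of_lt b hk, gb_of_lt b (by omega : m + k < 2 * k)]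
    ring

/-- `x ≡ 0` modulo `δ`. -/
def Z1 (n : ℕ) (x : RatFunc ℚ) : Prop := ∃ z ∈ Loc (Phi n), x = del n * z

theorem z1_pow (n c : ℕ) : Z1 n (1 - q ^ (n * c)) := by
  refine ⟨-∑ i ∈ range c, (q ^ n) ^ i, neg_mem (sum_mem fun i _ => pow_mem (pow_mem (q_mem n) n) i), ?_⟩
  rw [del, pow_mul]
  have := mul_geom_sum (q ^ n) c
  linear_combination this

theorem z1_of_dvd {n N : ℕ} (h : n ∣ N) : Z1 n (1 - q ^ N) := by
  obtain ⟨c, rfl⟩ := h
  exact z1_pow n c

theorem Z1.mulm {n : ℕ} {x y : RatFunc ℚ} (h : Z1 n x) (hy : y ∈ Loc (Phi n)) : Z1 n (x * y) := by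
  obtain ⟨z, hz, rfl⟩ := h
  exact ⟨z * y, mul_mem hz hy, by ring⟩

theorem cg_of_z1 {n : ℕ} {x y : RatFunc ℚ} (h : Z1 n x) (h' : Z1 n y) : Cg n 2 (x * y) 0 := by
  obtain ⟨z, hz, rfl⟩ := h
  obtain ⟨z', hz', rfl⟩ := h'
  exact ⟨z * z', mul_mem hz hz', by ring⟩

theorem cg1_iff {n : ℕ} {x y : RatFunc ℚ} : Cg n 1 x y ↔ Z1 n (x - y) := by
  unfold Cg Z1
  simp

theorem gb_mem' {n : ℕ} (m k : ℕ) : gb q m k ∈ Loc (Phi n) := gb_mem nr_q _ (q_mem n) m k

theorem fac_mem {p : ℕ} (hp : 0 < p) (N : ℕ) {i : ℕ} (hi : i + 1 < p) :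
    (1 - q ^ N) / (1 - q ^ (i + 1)) ∈ Loc (Phi p) := by
  rw [div_eq_mul_inv]
  exact mul_mem (sub_mem (one_mem _) (pow_mem (q_mem p) _))
    (one_sub_inv_mem hp (Nat.not_dvd_of_pos_of_lt (Nat.succ_pos i) hi))

/-- A Gaussian binomial with a factor divisible by `p` in the numerator. -/
theorem z1_gb {p : ℕ} (hp : 0 < p) {N r i : ℕ} (hr : r < p) (hi : i < r) (h : p ∣ N - i) :
    Z1 p (gb q N r) := by
  classical
  rw [gb, ← mul_prod_erase _ _ (mem_range.2 hi)]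
  refine Z1.mulm ?_ (prod_mem fun j hj => ?_)
  · rw [div_eq_mul_inv]
    exact (z1_of_dvd h).mulm
      (one_sub_inv_mem hp (Nat.not_dvd_of_pos_of_lt (Nat.succ_pos i) (by omega)))
  · have := mem_range.1 (mem_of_mem_erase hj)
    exact fac_mem hp _ (by omega)

/-- Reduction of the upper index modulo `p`. -/
theorem gb_red {p : ℕ} (hp : 0 < p) (c N : ℕ) {k : ℕ} (hk : k < p) (hN : k ≤ N) :
    Cg p 1 (gb q (p * c + N) k) (gb q N k) := by
  rw [gb, gb]
  refine Cg.prod (fun i hi => fac_mem hp _ (by have := mem_range.1 hi; omega))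
    (fun i hi => fac_mem hp _ (by have := mem_range.1 hi; omega)) fun i hi => ?_
  have hi' := mem_range.1 hi
  rw [div_eq_mul_inv, div_eq_mul_inv]
  refine Cg.mul_right (one_sub_inv_mem hp (Nat.not_dvd_of_pos_of_lt (Nat.succ_pos i) (by omega))) ?_
  rw [cg1_iff, show p * c + N - i = p * c + (N - i) by omega, pow_add]
  have h1 := (z1_pow p c).mulm (pow_mem (q_mem p) (N - i))
  have e : (1 - q ^ (p * c) * q ^ (N - i) - (1 - q ^ (N - i))) = (1 - q ^ (p * c)) * q ^ (N - i) := by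
    ring
  rw [e]
  exact h1

/-- The terms with `k ≤ p - 2`. -/
theorem term_zero {p : ℕ} (hp : 0 < p) (m k : ℕ) (hk : k + 1 < p) :
    Cg p 2 (W q k * (q ^ (k ^ 2) * (q ^ (m * k))⁻¹ * (gb q m k * gb q (m + k) k)) *
        (q ^ (k + 1) * (q ^ (p * (k + 1)))⁻¹ * ((1 - q ^ p) * (gb q (p + k) (2 * k) *
          (1 - q ^ (p - k)))) / (1 - q ^ (k + 1)))) 0 := by
  have hz := z1_of_dvd (dvd_refl p)
  have hqi : ∀ N : ℕ, (q ^ N)⁻¹ ∈ Loc (Phi p) := fun N => by
    rw [← inv_pow]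
    exact pow_mem (qinv_mem hp) N
  have hu : (1 - q ^ (k + 1))⁻¹ ∈ Loc (Phi p) :=
    one_sub_inv_mem hp (Nat.not_dvd_of_pos_of_lt (Nat.succ_pos k) hk)
  have hW : W q k ∈ Loc (Phi p) := prod_mem fun i _ =>
    mul_mem (add_mem (one_mem _) (pow_mem (q_mem p) _)) (add_mem (one_mem _) (pow_mem (q_mem p) _))
  have hc : W q k * (q ^ (k ^ 2) * (q ^ (m * k))⁻¹) * (q ^ (k + 1) * (q ^ (p * (k + 1)))⁻¹) *
      (1 - q ^ (k + 1))⁻¹ ∈ Loc (Phi p) :=
    mul_mem (mul_mem (mul_mem hW (mul_mem (pow_mem (q_mem p) _) (hqi _)))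
      (mul_mem (pow_mem (q_mem p) _) (hqi _))) hu
  have key : Z1 p (gb q m k * gb q (m + k) k * gb q (p + k) (2 * k) * (1 - q ^ (p - k))) := by
    rcases Nat.eq_zero_or_pos k with rfl | hk0
    · simp only [Nat.mul_zero, gb_zero_right, Nat.sub_zero, one_mul]
      exact hz
    · have e1 : gb q m k * gb q (m + k) k * gb q (p + k) (2 * k) =
          gb q (m + k) (2 * k) * (gb q p k * gb q (p + k) k) := by
        rw [gb_swap nr_q p k, gb_swap nr_q m k]
        ring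
      have e2 : Z1 p (gb q p k) := z1_gb hp (by omega) hk0 (by simp)
      rw [e1, show gb q (m + k) (2 * k) * (gb q p k * gb q (p + k) k) * (1 - q ^ (p - k)) =
        gb q p k * (gb q (m + k) (2 * k) * gb q (p + k) k * (1 - q ^ (p - k))) by ring]
      exact e2.mulm (mul_mem (mul_mem (gb_mem' _ _) (gb_mem' _ _))
        (sub_mem (one_mem _) (pow_mem (q_mem p) _)))
  have h1 := cg_of_z1 (hz.mulm hc) key
  have e : (1 - q ^ p) * (W q k * (q ^ (k ^ 2) * (q ^ (m * k))⁻¹) *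
      (q ^ (k + 1) * (q ^ (p * (k + 1)))⁻¹) * (1 - q ^ (k + 1))⁻¹) *
      (gb q m k * gb q (m + k) k * gb q (p + k) (2 * k) * (1 - q ^ (p - k))) =
      W q k * (q ^ (k ^ 2) * (q ^ (m * k))⁻¹ * (gb q m k * gb q (m + k) k)) *
        (q ^ (k + 1) * (q ^ (p * (k + 1)))⁻¹ * ((1 - q ^ p) * (gb q (p + k) (2 * k) *
          (1 - q ^ (p - k)))) / (1 - q ^ (k + 1))) := by
    rw [div_eq_mul_inv]
    ring
  rw [e] at h1
  exact h1

/-- The last term. -/
noncomputable def TT (r m : ℕ) : RatFunc ℚ :=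
  W q r * (q ^ (r * (m + 1)))⁻¹ * (gb q m r * gb q (m + r) r) * (1 - q ^ (2 * r + 1))

theorem last_term (r m : ℕ) :
    W q r * (q ^ (r ^ 2) * (q ^ (m * r))⁻¹ * (gb q m r * gb q (m + r) r)) *
        (q ^ (r + 1) * (q ^ ((r + 1) * (r + 1)))⁻¹ * ((1 - q ^ (r + 1)) * (gb q (r + 1 + r) (2 * r) *
          (1 - q ^ (r + 1 - r)))) / (1 - q ^ (r + 1))) = TT r m := by
  have h1 := nr_q.sub r
  have h0 := nr_q.sub 0
  have e1 : gb q (r + 1 + r) (2 * r) = (1 - q ^ (2 * r + 1)) / (1 - q ^ (0 + 1)) := by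
    rw [show r + 1 + r = 1 + 2 * r by ring, gb_add nr_q, show 1 + 2 * r = 2 * r + 1 by ring,
      ph_succ, show ph q 1 = 1 - q ^ (0 + 1) by rw [show (1 : ℕ) = 0 + 1 by rfl, ph_succ, ph_zero]; ring]
    have h2 := ph_ne nr_q (2 * r)
    field_simp
  rw [e1, show r + 1 - r = 0 + 1 by omega, TT, show r * (m + 1) = m * r + r by ring, pow_add q (m * r),
    show (r + 1) * (r + 1) = r ^ 2 + (2 * r + 1) by ring, pow_add q (r ^ 2),
    show q ^ (2 * r + 1) = q * q ^ r * q ^ r by ring, show q ^ (r + 1) = q * q ^ r by ring] at *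
  have h2 := q_ne
  have h3 := pow_ne_zero r q_ne
  have h4 := pow_ne_zero (r ^ 2) q_ne
  have h5 := pow_ne_zero (m * r) q_ne
  generalize q ^ (m * r) = w at *
  generalize q ^ (r ^ 2) = v at *
  generalize q ^ r = A at *
  generalize gb q m r = g1
  generalize gb q (m + r) r = g2
  generalize W q r = g3
  generalize (1 : RatFunc ℚ) - q ^ (0 + 1) = u0 at *
  field_simp

/-- The sum modulo `δ ^ 2`. -/
theorem sum_cg (r m : ℕ) :
    Cg (r + 1) 2 (∑ j ∈ range (r + 1), (1 - q ^ (2 * j + 1)) * ((q ^ j)⁻¹ * (D q m j * D q⁻¹ m j)))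
      (TT r m) := by
  rw [sum_formula q_ne nr_q nr_qinv, sum_range_succ, last_term]
  have h1 : Cg (r + 1) 2 (∑ k ∈ range r, W q k * (q ^ (k ^ 2) * (q ^ (m * k))⁻¹ *
      (gb q m k * gb q (m + k) k)) * (q ^ (k + 1) * (q ^ ((r + 1) * (k + 1)))⁻¹ *
      ((1 - q ^ (r + 1)) * (gb q (r + 1 + k) (2 * k) * (1 - q ^ (r + 1 - k)))) / (1 - q ^ (k + 1))))
      (∑ k ∈ range r, 0) :=
    Cg.sum fun k hk => term_zero (Nat.succ_pos r) m k (by have := mem_range.1 hk; omega)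
  rw [sum_const_zero] at h1
  have := h1.add (Cg.refl (TT r m))
  rwa [zero_add] at this

end Pool.Agent.Q281.Del
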