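import Pool.Agent.Q281.Del.Cong

set_option autoImplicit false

/-!
# The three cases
-/

namespace Pool.Agent.Q281.Del

open Finset Pool.Agent.Q281.QC

theorem cg1_of_z1 {n : ℕ} {x y z : RatFunc ℚ} (h : Z1 n z) (e : x - y = z) : Cg n 1 x y := by
  rw [cg1_iff, e]
  exact h

theorem z1_sub {n : ℕ} {x y : RatFunc ℚ} (h : Cg n 1 x y) : Z1 n (x - y) := cg1_iff.1 h

theorem inv_mem_pow {p : ℕ} (hp : 0 < p) (N : ℕ) : (q ^ N)⁻¹ ∈ Loc (Phi p) := by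
  rw [← inv_pow]
  exact pow_mem (qinv_mem hp) N

theorem pow_mem' (p N : ℕ) : q ^ N ∈ Loc (Phi p) := pow_mem (q_mem p) N

theorem ph_inv_mem {p : ℕ} (hp : 0 < p) {r : ℕ} (hr : r < p) : (ph q r)⁻¹ ∈ Loc (Phi p) := by
  rw [ph, ← prod_inv_distrib]
  refine prod_mem fun i hi => one_sub_inv_mem hp
    (Nat.not_dvd_of_pos_of_lt (Nat.succ_pos i) (by have := mem_range.1 hi; omega))

/-- `(-q;q)_(p-1)` -/
noncomputable def V (r : ℕ) : RatFunc ℚ := ∏ i ∈ range r, (1 + q ^ (i + 1))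

theorem V_mem (p r : ℕ) : V r ∈ Loc (Phi p) :=
  prod_mem fun _ _ => add_mem (one_mem _) (pow_mem' p _)

theorem split_ph (h : ℕ) : (∏ i ∈ range h, (1 - q ^ (2 * (i + 1)))) *
    ∏ i ∈ range h, (1 - q ^ (2 * i + 1)) = ph q (2 * h) := by
  induction h with
  | zero => simp [ph]
  | succ h ih =>
    rw [prod_range_succ, prod_range_succ, show 2 * (h + 1) = 2 * h + 1 + 1 by ring, ph_succ, ph_succ,
      ← ih]
    ring

theorem V_cg (h : ℕ) : Cg (2 * h + 1) 1 (V (2 * h)) 1 := by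
  have e1 : V (2 * h) * ph q (2 * h) = (∏ i ∈ range h, (1 - q ^ (2 * (i + 1)))) *
      ∏ i ∈ range h, (1 - q ^ ((2 * h + 1) * 1 + (2 * i + 1))) := by
    rw [V, ph, ← prod_mul_distrib, show 2 * h = h + h by ring, prod_range_add]
    congr 1
    · refine prod_congr rfl fun i _ => ?_
      rw [show q ^ (2 * (i + 1)) = (q ^ (i + 1)) ^ 2 by rw [← pow_mul, mul_comm]]
      ring
    · refine prod_congr rfl fun i _ => ?_
      rw [show q ^ ((h + h + 1) * 1 + (2 * i + 1)) = (q ^ (h + i + 1)) ^ 2 by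
        rw [← pow_mul]; congr 1; ring]
      ring
  have hm : ∀ N, (1 - q ^ N) ∈ Loc (Phi (2 * h + 1)) := fun N =>
    sub_mem (one_mem _) (pow_mem' _ N)
  have e2 : Cg (2 * h + 1) 1 (V (2 * h) * ph q (2 * h)) (ph q (2 * h)) := by
    rw [e1, ← split_ph]
    refine Cg.mul_left (prod_mem fun i _ => hm _) ?_
    refine Cg.prod (fun i _ => hm _) (fun i _ => hm _) fun i _ => ?_
    rw [pow_add]
    exact cg1_of_z1 ((z1_pow (2 * h + 1) 1).mulm (pow_mem' _ (2 * i + 1))) (by ring)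
  have e3 := e2.mul_right (ph_inv_mem (Nat.succ_pos (2 * h)) (by omega : 2 * h < 2 * h + 1))
  have h1 := ph_ne nr_q (2 * h)
  rwa [mul_assoc, mul_inv_cancel₀ h1, mul_one] at e3

theorem W_eq (r : ℕ) : W q r * (1 + q ^ r) = 2 * V r ^ 2 := by
  have e1 : (∏ i ∈ range r, (1 + q ^ i)) * (1 + q ^ r) = 2 * V r := by
    rw [← prod_range_succ (fun i => 1 + q ^ i), prod_range_succ', V]
    norm_num
    ring
  rw [W, prod_mul_distrib, ← V, mul_right_comm, e1]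
  ring

theorem two_ne_ndvd {h : ℕ} (hh : 0 < h) : ¬ (2 * h + 1) ∣ 2 * (2 * h) := by
  rintro ⟨c, hc⟩
  match c with
  | 0 => omega
  | 1 => omega
  | c + 2 =>
    have : (2 * h + 1) * 2 ≤ (2 * h + 1) * (c + 2) := Nat.mul_le_mul_left _ (by omega)
    omega

theorem one_add_inv_mem {p a : ℕ} (hp : 0 < p) (h : ¬ p ∣ 2 * a) : (1 + q ^ a)⁻¹ ∈ Loc (Phi p) ∧
    1 + q ^ a ≠ 0 := by
  have ha : 0 < a := by
    rcases Nat.eq_zero_or_pos a with rfl | h'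
    · exact absurd (dvd_zero p) h
    · exact h'
  have h1 : 1 - q ^ (2 * a) ≠ 0 := sub_ne_zero.2 (q_pow_ne_one (by omega)).symm
  have e : (1 - q ^ a) * (1 + q ^ a) = 1 - q ^ (2 * a) := by
    rw [show q ^ (2 * a) = (q ^ a) ^ 2 by rw [← pow_mul, mul_comm]]
    ring
  have h2 : 1 + q ^ a ≠ 0 := by
    intro h0
    rw [h0, mul_zero] at e
    exact h1 e.symm
  refine ⟨?_, h2⟩
  have h3 : (1 + q ^ a)⁻¹ = (1 - q ^ a) * (1 - q ^ (2 * a))⁻¹ := by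
    rw [← e]
    have h4 : 1 - q ^ a ≠ 0 := sub_ne_zero.2 (q_pow_ne_one ha).symm
    field_simp
  rw [h3]
  exact mul_mem (sub_mem (one_mem _) (pow_mem' p a)) (one_sub_inv_mem hp h)

section

variable {h : ℕ} (hh : 0 < h)

include hh

theorem one_add_q : (1 + q)⁻¹ ∈ Loc (Phi (2 * h + 1)) ∧ 1 + q ≠ 0 := by
  have := one_add_inv_mem (p := 2 * h + 1) (a := 1) (by omega) (by
    intro hd
    have := Nat.le_of_dvd (by omega) hd
    omega)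
  rwa [pow_one] at this

theorem W_cg : Cg (2 * h + 1) 1 (W q (2 * h)) (2 * q * (1 + q)⁻¹) := by
  obtain ⟨h1, h2⟩ := one_add_inv_mem (p := 2 * h + 1) (a := 2 * h) (by omega) (two_ne_ndvd hh)
  obtain ⟨h3, h4⟩ := one_add_q hh
  have h5 : Cg (2 * h + 1) 1 (V (2 * h) ^ 2) 1 := by
    have := (V_cg h).pow (V_mem _ _) (one_mem _) 2
    rwa [one_pow] at this
  have h6 := z1_sub h5
  have h7 := z1_pow (2 * h + 1) 1
  obtain ⟨z, hz, ez⟩ := h6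
  obtain ⟨w, hw, ew⟩ := h7
  have h2m : (2 : RatFunc ℚ) ∈ Loc (Phi (2 * h + 1)) := by
    have := natCast_mem (Loc (Phi (2 * h + 1))) 2
    exact_mod_cast this
  rw [cg1_iff]
  refine ⟨(1 + q ^ (2 * h))⁻¹ * (1 + q)⁻¹ * (2 * (1 + q) * z + 2 * w),
    mul_mem (mul_mem h1 h3) (add_mem (mul_mem (mul_mem h2m (add_mem (one_mem _) (q_mem _))) hz)
      (mul_mem h2m hw)), ?_⟩
  have e1 := W_eq (2 * h)
  have e2 : W q (2 * h) = 2 * V (2 * h) ^ 2 * (1 + q ^ (2 * h))⁻¹ := by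
    rw [← e1]
    field_simp
  rw [e2]
  have e3 : q ^ ((2 * h + 1) * 1) = q * q ^ (2 * h) := by ring
  rw [e3] at ew
  have e4 : 2 * V (2 * h) ^ 2 * (1 + q ^ (2 * h))⁻¹ - 2 * q * (1 + q)⁻¹ =
      (1 + q ^ (2 * h))⁻¹ * (1 + q)⁻¹ * (2 * (1 + q) * (V (2 * h) ^ 2 - 1) +
        2 * (1 - q * q ^ (2 * h))) := by
    field_simp
    ring
  rw [e4, ez, ew]
  ring

end

theorem gb_succ_succ (M s : ℕ) :
    gb q (M + 1) (s + 1) = gb q M s * ((1 - q ^ (M + 1)) / (1 - q ^ (s + 1))) := by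
  rw [gb_succ_right, mul_div_assoc', mul_div_assoc', ladder nr_q]

theorem gb_succ_self (s : ℕ) : gb q (s + 1) s = (1 - q ^ (s + 1)) / (1 - q) := by
  have h1 := ph_ne nr_q s
  have h0 := nr_q.sub 0
  rw [show s + 1 = 1 + s by ring, gb_add nr_q, show 1 + s = s + 1 by ring, ph_succ,
    show ph q 1 = 1 - q ^ (0 + 1) by rw [show (1 : ℕ) = 0 + 1 by rfl, ph_succ, ph_zero]; ring]
  rw [zero_add, pow_one] at *
  field_simp

/-- `1 - q^(2r+1) ≡ 1 - 1/q`, `r = p - 1`. -/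
theorem c1 (r : ℕ) : Cg (r + 1) 1 (1 - q ^ (2 * r + 1)) ((q - 1) * q⁻¹) := by
  have h1 := (z1_pow (r + 1) 2).mulm (qinv_mem (Nat.succ_pos r))
  refine cg1_of_z1 h1 ?_
  have := q_ne
  rw [show q ^ ((r + 1) * 2) = q * q ^ (2 * r + 1) by ring]
  field_simp
  ring

theorem c2 {r m c : ℕ} (h : r * (m + 1) + 1 = (r + 1) * c) :
    Cg (r + 1) 1 (q ^ (r * (m + 1)))⁻¹ q := by
  have h1 := (z1_pow (r + 1) c).mulm (inv_mem_pow (p := r + 1) (Nat.succ_pos r) (r * (m + 1)))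
  refine cg1_of_z1 h1 ?_
  have := pow_ne_zero (r * (m + 1)) q_ne
  rw [← h, pow_succ]
  field_simp

theorem c3 {r m c : ℕ} (h : r * (m + 1) = (r + 1) * c) :
    Cg (r + 1) 1 (q ^ (r * (m + 1)))⁻¹ 1 := by
  have h1 := (z1_pow (r + 1) c).mulm (inv_mem_pow (p := r + 1) (Nat.succ_pos r) (r * (m + 1)))
  refine cg1_of_z1 h1 ?_
  have := pow_ne_zero (r * (m + 1)) q_ne
  rw [← h]
  field_simp

theorem case1 {r m : ℕ} (h1 : ¬ (r + 1) ∣ m) (h2 : ¬ (r + 1) ∣ m + 1) : Cg (r + 1) 2 (TT r m) 0 := by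
  have hp : 0 < r + 1 := Nat.succ_pos r
  have hm0 : m % (r + 1) ≠ 0 := fun h => h1 (Nat.dvd_of_mod_eq_zero h)
  have hmr : m % (r + 1) ≠ r := by
    intro h
    apply h2
    have h3 := Nat.div_add_mod m (r + 1)
    rw [h] at h3
    exact ⟨m / (r + 1) + 1, by rw [mul_add, mul_one]; omega⟩
  have hlt := Nat.mod_lt m hp
  have h3 := Nat.div_add_mod m (r + 1)
  have z1 : Z1 (r + 1) (gb q m r) := z1_gb hp (Nat.lt_succ_self r) (i := m % (r + 1)) (by omega)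
    ⟨m / (r + 1), by omega⟩
  have z2 : Z1 (r + 1) (gb q (m + r) r) := z1_gb hp (Nat.lt_succ_self r) (i := m % (r + 1) - 1)
    (by omega) ⟨m / (r + 1) + 1, by rw [mul_add, mul_one]; omega⟩
  have hW : W q r ∈ Loc (Phi (r + 1)) := prod_mem fun i _ =>
    mul_mem (add_mem (one_mem _) (pow_mem' _ _)) (add_mem (one_mem _) (pow_mem' _ _))
  have hc : W q r * (q ^ (r * (m + 1)))⁻¹ * (1 - q ^ (2 * r + 1)) ∈ Loc (Phi (r + 1)) :=
    mul_mem (mul_mem hW (inv_mem_pow hp _)) (sub_mem (one_mem _) (pow_mem' _ _))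
  have h4 := cg_of_z1 (z1.mulm hc) z2
  have e : gb q m r * (W q r * (q ^ (r * (m + 1)))⁻¹ * (1 - q ^ (2 * r + 1))) * gb q (m + r) r =
      TT r m := by
    rw [TT]
    ring
  rwa [e] at h4

theorem W_mem (p r : ℕ) : W q r ∈ Loc (Phi p) := prod_mem fun _ _ =>
  mul_mem (add_mem (one_mem _) (pow_mem' _ _)) (add_mem (one_mem _) (pow_mem' _ _))

/-- The case `p ∣ m`. -/
theorem case2 {h c : ℕ} (hh : 0 < h) (hc : 0 < c) :
    Cg (2 * h + 1) 2 (TT (2 * h) ((2 * h + 1) * c))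
      ((1 - q) * (q * (1 - (q ^ (2 * ((2 * h + 1) * c)))⁻¹) / (1 - q ^ 2))) := by
  obtain ⟨c, rfl⟩ : ∃ d, c = d + 1 := ⟨c - 1, by omega⟩
  obtain ⟨h, rfl⟩ : ∃ d, h = d + 1 := ⟨h - 1, by omega⟩
  have hp : 0 < 2 * (h + 1) + 1 := by omega
  obtain ⟨ha, ha0⟩ := one_add_q hh
  have hq := q_ne
  have h1q : (1 : RatFunc ℚ) - q ≠ 0 := by
    have := nr_q.sub 0
    rwa [zero_add, pow_one] at this
  have e0 : (2 * (h + 1) + 1) * (c + 1) = (2 * (h + 1) + 1) * c + (2 * h + 2) + 1 := by ring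
  have er : 2 * (h + 1) = (2 * h + 1) + 1 := by ring
  -- the factors
  have f1 := W_cg hh
  have f2 : Cg (2 * (h + 1) + 1) 1 (q ^ (2 * (h + 1) * ((2 * (h + 1) + 1) * (c + 1) + 1)))⁻¹ q :=
    c2 (c := (2 * (h + 1)) * (c + 1) + 1) (by ring)
  have f3 : Cg (2 * (h + 1) + 1) 1 (gb q ((2 * (h + 1) + 1) * c + (2 * h + 2)) (2 * h + 1))
      ((1 - q ^ (2 * h + 2)) / (1 - q)) := by
    have := gb_red hp c (2 * h + 2) (k := 2 * h + 1) (by omega) (by omega)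
    rwa [gb_succ_self] at this
  have f4 : Cg (2 * (h + 1) + 1) 1 (gb q ((2 * (h + 1) + 1) * (c + 1) + 2 * (h + 1)) (2 * (h + 1))) 1 := by
    have := gb_red hp (c + 1) (2 * (h + 1)) (k := 2 * (h + 1)) (by omega) (le_refl _)
    rwa [gb_self nr_q] at this
  have f5 := c1 (2 * (h + 1))
  have g1 : (1 - q ^ (2 * h + 2))⁻¹ ∈ Loc (Phi (2 * (h + 1) + 1)) :=
    one_sub_inv_mem hp (Nat.not_dvd_of_pos_of_lt (by omega) (by omega))
  have g1' : (1 : RatFunc ℚ) - q ^ (2 * h + 2) ≠ 0 := nr_q.sub (2 * h + 1)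
  have g0 : (1 - q)⁻¹ ∈ Loc (Phi (2 * (h + 1) + 1)) := by
    have := one_sub_inv_mem (a := 1) hp (Nat.not_dvd_of_pos_of_lt (by omega) (by omega))
    rwa [pow_one] at this
  have h2m : (2 : RatFunc ℚ) ∈ Loc (Phi (2 * (h + 1) + 1)) := by
    have := natCast_mem (Loc (Phi (2 * (h + 1) + 1))) 2
    exact_mod_cast this
  have m3 : (1 - q ^ (2 * h + 2)) / (1 - q) ∈ Loc (Phi (2 * (h + 1) + 1)) := by
    rw [div_eq_mul_inv]
    exact mul_mem (sub_mem (one_mem _) (pow_mem' _ _)) g0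
  have mF := Cg.mul (mul_mem (gb_mem' _ _) (gb_mem' _ _))
    (mul_mem (mul_mem (mul_mem h2m (q_mem _)) ha) (q_mem _))
    (Cg.mul (inv_mem_pow hp _) (mul_mem (mul_mem h2m (q_mem _)) ha) f1 f2)
    (Cg.mul (gb_mem' _ _) m3 f3 f4)
  have mF2 := Cg.mul (mul_mem g1 (sub_mem (one_mem _) (pow_mem' _ _)))
    (mul_mem (mul_mem (mul_mem (mul_mem h2m (q_mem _)) ha) (q_mem _)) (mul_mem m3 (one_mem _))) mF
    (f5.mul_left g1)
  have f6 : Cg (2 * (h + 1) + 1) 1 (-(q * (q ^ (2 * ((2 * (h + 1) + 1) * (c + 1))))⁻¹ *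
      (1 + q ^ ((2 * (h + 1) + 1) * (c + 1))) * (1 + q)⁻¹)) (-(2 * q * (1 + q)⁻¹)) := by
    obtain ⟨z, hz, ez⟩ := z1_pow (2 * (h + 1) + 1) (c + 1)
    rw [cg1_iff]
    have hn0 := pow_ne_zero ((2 * (h + 1) + 1) * (c + 1)) q_ne
    refine ⟨-(q * (1 + q)⁻¹ * (q ^ (2 * ((2 * (h + 1) + 1) * (c + 1))))⁻¹ *
      (1 + 2 * q ^ ((2 * (h + 1) + 1) * (c + 1))) * z), ?_, ?_⟩
    · exact neg_mem (mul_mem (mul_mem (mul_mem (mul_mem (q_mem _) ha) (inv_mem_pow hp _))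
        (add_mem (one_mem _) (mul_mem h2m (pow_mem' _ _)))) hz)
    · have e5 : q ^ (2 * ((2 * (h + 1) + 1) * (c + 1))) =
          q ^ ((2 * (h + 1) + 1) * (c + 1)) * q ^ ((2 * (h + 1) + 1) * (c + 1)) := by
        rw [← pow_add]; congr 1; ring
      rw [e5]
      generalize q ^ ((2 * (h + 1) + 1) * (c + 1)) = Y at *
      have e6 : del (2 * (h + 1) + 1) * -(q * (1 + q)⁻¹ * (Y * Y)⁻¹ * (1 + 2 * Y) * z) =
          -(q * (1 + q)⁻¹ * (Y * Y)⁻¹ * (1 + 2 * Y) * (1 - Y)) := by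
        rw [ez]
        ring
      rw [e6]
      field_simp
      ring
  have e7 : 2 * q * (1 + q)⁻¹ * q * ((1 - q ^ (2 * h + 2)) / (1 - q) * 1) *
      ((1 - q ^ (2 * h + 2))⁻¹ * ((q - 1) * q⁻¹)) = -(2 * q * (1 + q)⁻¹) := by
    generalize q ^ (2 * h + 2) = A at *
    have e8 : (q - 1 : RatFunc ℚ) = -(1 - q) := by ring
    rw [e8]
    field_simp
  rw [e7] at mF2
  have f7 := cg_of_z1 (z1_pow (2 * (h + 1) + 1) (c + 1)) (z1_sub (mF2.trans f6.symm))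
  obtain ⟨z, hz, ez⟩ := f7
  refine ⟨z, hz, ?_⟩
  rw [← ez, sub_zero, TT]
  have e9 : gb q ((2 * (h + 1) + 1) * (c + 1)) (2 * (h + 1)) =
      gb q ((2 * (h + 1) + 1) * c + (2 * h + 2)) (2 * h + 1) *
        ((1 - q ^ ((2 * (h + 1) + 1) * (c + 1))) / (1 - q ^ (2 * h + 2))) := by
    rw [e0, er, gb_succ_succ]
  rw [e9]
  have hq2 : (1 : RatFunc ℚ) - q ^ 2 = (1 - q) * (1 + q) := by ring
  have hn0 := pow_ne_zero ((2 * (h + 1) + 1) * (c + 1)) q_ne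
  have e5 : q ^ (2 * ((2 * (h + 1) + 1) * (c + 1))) =
      q ^ ((2 * (h + 1) + 1) * (c + 1)) * q ^ ((2 * (h + 1) + 1) * (c + 1)) := by
    rw [← pow_add]; congr 1; ring
  rw [hq2, e5]
  have e10 : (1 - q) * (q * (1 - (q ^ ((2 * (h + 1) + 1) * (c + 1)) *
      q ^ ((2 * (h + 1) + 1) * (c + 1)))⁻¹) / ((1 - q) * (1 + q))) =
      (1 - q ^ ((2 * (h + 1) + 1) * (c + 1))) * (-(q * (q ^ ((2 * (h + 1) + 1) * (c + 1)) *
      q ^ ((2 * (h + 1) + 1) * (c + 1)))⁻¹ *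
      (1 + q ^ ((2 * (h + 1) + 1) * (c + 1))) * (1 + q)⁻¹)) := by
    generalize q ^ ((2 * (h + 1) + 1) * (c + 1)) = Y at *
    field_simp
    ring
  rw [e10]
  ring

/-- The case `p ∣ m + 1`. -/
theorem case3 {h c m : ℕ} (hh : 0 < h) (hm : m + 1 = (2 * h + 1) * c) :
    Cg (2 * h + 1) 2 (TT (2 * h) m) ((1 - q) * (q * (1 - q ^ (2 * m + 2)) / (1 - q ^ 2))) := by
  obtain ⟨c, rfl⟩ : ∃ d, c = d + 1 := ⟨c - 1, by
    rcases Nat.eq_zero_or_pos c with rfl | h'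
    · omega
    · omega⟩
  obtain ⟨h, rfl⟩ : ∃ d, h = d + 1 := ⟨h - 1, by omega⟩
  have hp : 0 < 2 * (h + 1) + 1 := by omega
  obtain ⟨ha, ha0⟩ := one_add_q hh
  have hq := q_ne
  have h1q : (1 : RatFunc ℚ) - q ≠ 0 := by
    have := nr_q.sub 0
    rwa [zero_add, pow_one] at this
  have er : 2 * (h + 1) = (2 * h + 1) + 1 := by ring
  have em : m = (2 * (h + 1) + 1) * c + 2 * (h + 1) := by
    have : (2 * (h + 1) + 1) * (c + 1) = (2 * (h + 1) + 1) * c + 2 * (h + 1) + 1 := by ring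
    omega
  have f1 := W_cg hh
  have f2 : Cg (2 * (h + 1) + 1) 1 (q ^ (2 * (h + 1) * (m + 1)))⁻¹ 1 :=
    c3 (c := (2 * (h + 1)) * (c + 1)) (by rw [hm]; ring)
  have f3 : Cg (2 * (h + 1) + 1) 1 (gb q m (2 * (h + 1))) 1 := by
    have := gb_red hp c (2 * (h + 1)) (k := 2 * (h + 1)) (by omega) (le_refl _)
    rwa [gb_self nr_q, ← em] at this
  have f4 : Cg (2 * (h + 1) + 1) 1 (gb q (m + 2 * (h + 1)) (2 * h + 1)) 1 := by
    have := gb_red hp (c + 1) (2 * h + 1) (k := 2 * h + 1) (by omega) (le_refl _)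
    rwa [gb_self nr_q, ← hm, show m + 1 + (2 * h + 1) = m + 2 * (h + 1) by ring] at this
  have f5 := c1 (2 * (h + 1))
  have g1 : (1 - q ^ (2 * h + 2))⁻¹ ∈ Loc (Phi (2 * (h + 1) + 1)) :=
    one_sub_inv_mem hp (Nat.not_dvd_of_pos_of_lt (by omega) (by omega))
  have g1' : (1 : RatFunc ℚ) - q ^ (2 * h + 2) ≠ 0 := nr_q.sub (2 * h + 1)
  have h2m : (2 : RatFunc ℚ) ∈ Loc (Phi (2 * (h + 1) + 1)) := by
    have := natCast_mem (Loc (Phi (2 * (h + 1) + 1))) 2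
    exact_mod_cast this
  -- (1 - q^(2r+1)) / (1 - q^r) = 1 mod
  have f6 : Cg (2 * (h + 1) + 1) 1 ((1 - q ^ (2 * h + 2))⁻¹ * (1 - q ^ (2 * (2 * (h + 1)) + 1))) 1 := by
    obtain ⟨z, hz, ez⟩ := z1_pow (2 * (h + 1) + 1) 1
    rw [cg1_iff]
    refine ⟨(1 - q ^ (2 * h + 2))⁻¹ * q ^ (2 * h + 2) * z,
      mul_mem (mul_mem g1 (pow_mem' _ _)) hz, ?_⟩
    have e1 : q ^ (2 * (2 * (h + 1)) + 1) = q ^ ((2 * (h + 1) + 1) * 1) * q ^ (2 * h + 2) := by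
      rw [← pow_add]; congr 1; ring
    have e2 : del (2 * (h + 1) + 1) * ((1 - q ^ (2 * h + 2))⁻¹ * q ^ (2 * h + 2) * z) =
        (1 - q ^ (2 * h + 2))⁻¹ * q ^ (2 * h + 2) * (1 - q ^ ((2 * (h + 1) + 1) * 1)) := by
      rw [ez]
      ring
    rw [e2, e1]
    generalize q ^ (2 * h + 2) = A at *
    generalize q ^ ((2 * (h + 1) + 1) * 1) = Y at *
    field_simp
    ring
  have mF := Cg.mul (mul_mem (gb_mem' _ _) (gb_mem' _ _))
    (mul_mem (mul_mem (mul_mem h2m (q_mem _)) ha) (one_mem _))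
    (Cg.mul (inv_mem_pow hp _) (mul_mem (mul_mem h2m (q_mem _)) ha) f1 f2)
    (Cg.mul (gb_mem' _ _) (one_mem _) f3 f4)
  have mF2 := Cg.mul (mul_mem g1 (sub_mem (one_mem _) (pow_mem' _ _)))
    (mul_mem (mul_mem (mul_mem (mul_mem h2m (q_mem _)) ha) (one_mem _)) (mul_mem (one_mem _) (one_mem _))) mF
    f6
  have f7 : Cg (2 * (h + 1) + 1) 1 (q * (1 + q ^ (m + 1)) * (1 + q)⁻¹) (2 * q * (1 + q)⁻¹ * 1 *
      (1 * 1) * 1) := by
    obtain ⟨z, hz, ez⟩ := z1_pow (2 * (h + 1) + 1) (c + 1)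
    rw [cg1_iff]
    refine ⟨-(q * (1 + q)⁻¹ * z), neg_mem (mul_mem (mul_mem (q_mem _) ha) hz), ?_⟩
    rw [← hm] at ez
    have e6 : del (2 * (h + 1) + 1) * -(q * (1 + q)⁻¹ * z) =
        -(q * (1 + q)⁻¹ * (1 - q ^ (m + 1))) := by
      rw [ez]
      ring
    rw [e6]
    ring
  have hz1 : Z1 (2 * (h + 1) + 1) (1 - q ^ (m + 1)) := by
    rw [hm]
    exact z1_pow _ _
  have f8 := cg_of_z1 hz1 (z1_sub (mF2.trans f7.symm))
  obtain ⟨z, hz, ez⟩ := f8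
  refine ⟨z, hz, ?_⟩
  rw [← ez, sub_zero, TT]
  have e9 : gb q (m + 2 * (h + 1)) (2 * (h + 1)) = gb q (m + 2 * (h + 1)) (2 * h + 1) *
      ((1 - q ^ (m + 1)) / (1 - q ^ (2 * h + 2))) := by
    have := gb_succ_right q (m + 2 * (h + 1)) (2 * h + 1)
    rwa [show m + 2 * (h + 1) - (2 * h + 1) = m + 1 by omega] at this
  rw [e9]
  have hq2 : (1 : RatFunc ℚ) - q ^ 2 = (1 - q) * (1 + q) := by ring
  have e5 : q ^ (2 * m + 2) = q ^ (m + 1) * q ^ (m + 1) := by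
    rw [← pow_add]; congr 1; ring
  rw [hq2, e5]
  have e10 : (1 - q) * (q * (1 - q ^ (m + 1) * q ^ (m + 1)) / ((1 - q) * (1 + q))) =
      (1 - q ^ (m + 1)) * (q * (1 + q ^ (m + 1)) * (1 + q)⁻¹) := by
    generalize q ^ (m + 1) = Y at *
    field_simp
    ring
  rw [e10]
  ring

end Pool.Agent.Q281.Del
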