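import Mathlib

set_option autoImplicit false

/-!
# Gaussian binomial coefficients and q-Delannoy numbers in a field
-/

namespace Pool.Agent.Q281.Del

open Finset

variable {K : Type*} [Field K]

/-- Gaussian binomial coefficient with base `b`. -/
noncomputable def gb (b : K) (n k : ℕ) : K := ∏ i ∈ range k, (1 - b ^ (n - i)) / (1 - b ^ (i + 1))

/-- `(b;b)_n` -/
noncomputable def ph (b : K) (n : ℕ) : K := ∏ i ∈ range n, (1 - b ^ (i + 1))

/-- `b` is not a root of unity. -/
def NR (b : K) : Prop := ∀ i : ℕ, 0 < i → b ^ i ≠ 1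

theorem NR.sub {b : K} (h : NR b) (i : ℕ) : 1 - b ^ (i + 1) ≠ 0 :=
  sub_ne_zero.2 (h (i + 1) (Nat.succ_pos i)).symm

theorem ph_succ (b : K) (n : ℕ) : ph b (n + 1) = ph b n * (1 - b ^ (n + 1)) := by
  rw [ph, prod_range_succ, ph]

theorem ph_zero (b : K) : ph b 0 = 1 := by simp [ph]

theorem ph_ne {b : K} (h : NR b) (n : ℕ) : ph b n ≠ 0 := prod_ne_zero_iff.2 fun i _ => h.sub i

theorem gb_zero_right (b : K) (n : ℕ) : gb b n 0 = 1 := by simp [gb]

theorem gb_of_lt (b : K) {n k : ℕ} (h : n < k) : gb b n k = 0 := by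
  rw [gb]
  refine prod_eq_zero (mem_range.2 h) ?_
  simp

theorem gb_add {b : K} (h : NR b) (a c : ℕ) : gb b (a + c) c = ph b (a + c) / (ph b a * ph b c) := by
  rw [gb, prod_div_distrib]
  have h1 : ∏ i ∈ range c, (1 - b ^ (a + c - i)) = ∏ i ∈ range c, (1 - b ^ (a + i + 1)) := by
    rw [← prod_range_reflect]
    refine prod_congr rfl fun i hi => ?_
    have := mem_range.1 hi
    congr 2
    omega
  have h2 : ph b (a + c) = ph b a * ∏ i ∈ range c, (1 - b ^ (a + i + 1)) := by
    rw [ph, prod_range_add, ph]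
  rw [h1, h2, ← ph]
  have h3 := ph_ne h a
  have h4 := ph_ne h c
  field_simp

theorem gb_self {b : K} (h : NR b) (n : ℕ) : gb b n n = 1 := by
  have := gb_add h 0 n
  rw [zero_add, ph_zero, one_mul, div_self (ph_ne h n)] at this
  exact this

theorem pascal1 {b : K} (h : NR b) (n k : ℕ) :
    gb b (n + 1) (k + 1) = gb b n k + b ^ (k + 1) * gb b n (k + 1) := by
  rcases lt_trichotomy n k with h1 | rfl | h1
  · rw [gb_of_lt b (by omega : n + 1 < k + 1), gb_of_lt b h1, gb_of_lt b (by omega : n < k + 1)]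
    ring
  · rw [gb_self h, gb_self h, gb_of_lt b (by omega : n < n + 1)]
    ring
  · obtain ⟨l, rfl⟩ : ∃ l, n = l + 1 + k := ⟨n - k - 1, by omega⟩
    rw [show l + 1 + k + 1 = l + 1 + (k + 1) by ring, gb_add h (l + 1) (k + 1), gb_add h (l + 1) k,
      show l + 1 + k = l + (k + 1) by ring, gb_add h l (k + 1),
      show l + 1 + (k + 1) = l + (k + 1) + 1 by ring, ph_succ b (l + (k + 1)), ph_succ b l,
      ph_succ b k]
    have h3 := ph_ne h l
    have h4 := ph_ne h k
    have h5 := h.sub l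
    have h6 := h.sub k
    field_simp
    ring

theorem pascal2 {b : K} (h : NR b) (n k : ℕ) :
    gb b (n + 1) (k + 1) = b ^ (n - k) * gb b n k + gb b n (k + 1) := by
  rcases lt_trichotomy n k with h1 | rfl | h1
  · rw [gb_of_lt b (by omega : n + 1 < k + 1), gb_of_lt b h1, gb_of_lt b (by omega : n < k + 1)]
    ring
  · rw [gb_self h, gb_self h, gb_of_lt b (by omega : n < n + 1)]
    simp
  · obtain ⟨l, rfl⟩ : ∃ l, n = l + 1 + k := ⟨n - k - 1, by omega⟩
    rw [show l + 1 + k + 1 = l + 1 + (k + 1) by ring, gb_add h (l + 1) (k + 1), gb_add h (l + 1) k,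
      show l + 1 + k = l + (k + 1) by ring, gb_add h l (k + 1),
      show l + 1 + (k + 1) = l + (k + 1) + 1 by ring, ph_succ b (l + (k + 1)), ph_succ b l,
      ph_succ b k, show l + (k + 1) - k = l + 1 by omega]
    have h3 := ph_ne h l
    have h4 := ph_ne h k
    have h5 := h.sub l
    have h6 := h.sub k
    field_simp
    ring

theorem gb_sym {b : K} (h : NR b) (m n j : ℕ) (hj : j ≤ n) :
    gb b n j * gb b (m + n - j) n = gb b m j * gb b (m + n - j) m := by
  rcases le_or_gt j m with h1 | h1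
  · obtain ⟨a, rfl⟩ := Nat.exists_eq_add_of_le' hj
    obtain ⟨c, rfl⟩ := Nat.exists_eq_add_of_le' h1
    rw [gb_add h, gb_add h, show c + j + (a + j) - j = c + (a + j) by omega, gb_add h,
      show c + (a + j) = a + (c + j) by ring, gb_add h]
    have h3 := ph_ne h a
    have h4 := ph_ne h c
    have h5 := ph_ne h j
    have h6 := ph_ne h (a + j)
    have h7 := ph_ne h (c + j)
    field_simp
  · rw [gb_of_lt b (by omega : m + n - j < n), gb_of_lt b h1]
    ring

/-- The q-Delannoy numbers. -/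
noncomputable def D (b : K) (m n : ℕ) : K :=
  ∑ j ∈ range (n + 1), b ^ (j * (j - 1) / 2) * gb b n j * gb b (m + n - j) n

noncomputable def G (b : K) (m n : ℕ) : K :=
  ∑ j ∈ range (n + 1), b ^ (j * (j - 1) / 2) * gb b m j * gb b (m + n - j) m

theorem D_eq {b : K} (h : NR b) (m n : ℕ) : D b m n = G b m n := by
  refine sum_congr rfl fun j hj => ?_
  have h1 := gb_sym h m n j (Nat.lt_succ_iff.1 (mem_range.1 hj))
  rw [mul_assoc, h1, mul_assoc]

theorem D_eq' {b : K} (m n : ℕ) : D b m n = G b n m := by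
  have hz : ∀ j : ℕ, (m < j ∨ n < j) → b ^ (j * (j - 1) / 2) * gb b n j * gb b (m + n - j) n = 0 := by
    intro j hj
    rcases hj with h1 | h1
    · rcases Nat.eq_zero_or_pos n with rfl | h2
      · rw [gb_of_lt b (by omega : 0 < j)]
        ring
      · rw [gb_of_lt b (by omega : m + n - j < n)]
        ring
    · rw [gb_of_lt b h1]
      ring
  have e1 : D b m n = ∑ j ∈ range (m + n + 1),
      b ^ (j * (j - 1) / 2) * gb b n j * gb b (m + n - j) n := by
    rw [D]
    refine sum_subset (range_mono (by omega)) fun j _ hj => hz j (Or.inr ?_)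
    rw [mem_range] at hj
    omega
  have e2 : G b n m = ∑ j ∈ range (m + n + 1),
      b ^ (j * (j - 1) / 2) * gb b n j * gb b (m + n - j) n := by
    rw [G]
    refine sum_subset_zero_on_sdiff (range_mono (by omega)) (fun j hj => hz j (Or.inl ?_)) ?_
    · rw [mem_sdiff, mem_range, mem_range] at hj
      omega
    · intro j _
      rw [add_comm n m]
  rw [e1, e2]

theorem tri_succ (j : ℕ) : (j + 1) * (j + 1 - 1) / 2 = j * (j - 1) / 2 + j := by
  rw [← Nat.choose_two_right, ← Nat.choose_two_right, Nat.choose_succ_succ' j 1,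
    Nat.choose_one_right]
  ring

theorem recA {b : K} (h : NR b) (m n : ℕ) :
    G b (m + 1) (n + 1) = b ^ (m + 1) * G b (m + 1) n + G b m (n + 1) + b ^ m * G b m n := by
  have e0 : G b (m + 1) n = ∑ j ∈ range (n + 1 + 1),
      b ^ (j * (j - 1) / 2) * gb b (m + 1) j * gb b (m + 1 + n - j) (m + 1) := by
    rw [sum_range_succ, gb_of_lt b (by omega : m + 1 + n - (n + 1) < m + 1), mul_zero, add_zero, G]
  have e1 : G b (m + 1) (n + 1) - b ^ (m + 1) * G b (m + 1) n = ∑ j ∈ range (n + 1 + 1),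
      b ^ (j * (j - 1) / 2) * gb b (m + 1) j * gb b (m + (n + 1) - j) m := by
    rw [e0, G, mul_sum, ← sum_sub_distrib]
    refine sum_congr rfl fun j hj => ?_
    have hj' := mem_range.1 hj
    rw [show m + 1 + (n + 1) - j = m + (n + 1) - j + 1 by omega, pascal1 h,
      show m + 1 + n - j = m + (n + 1) - j by omega]
    ring
  have e2 : ∑ j ∈ range (n + 1 + 1),
      b ^ (j * (j - 1) / 2) * gb b (m + 1) j * gb b (m + (n + 1) - j) m =
      G b m (n + 1) + b ^ m * G b m n := by
    rw [G, sum_range_succ' _ (n + 1), sum_range_succ' _ (n + 1), gb_zero_right, gb_zero_right, G,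
      mul_sum, add_right_comm, ← sum_add_distrib]
    congr 1
    refine sum_congr rfl fun j hj => ?_
    have hj' := mem_range.1 hj
    rw [pascal2 h, show m + (n + 1) - (j + 1) = m + n - j by omega]
    rcases le_or_gt j m with h1 | h1
    · have e3 : b ^ ((j + 1) * (j + 1 - 1) / 2) * b ^ (m - j) = b ^ m * b ^ (j * (j - 1) / 2) := by
        rw [tri_succ, ← pow_add, ← pow_add]
        congr 1
        omega
      linear_combination (gb b m j * gb b (m + n - j) m) * e3
    · rw [gb_of_lt b h1]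
      ring
  linear_combination e1 + e2

theorem D_rec1 {b : K} (h : NR b) (m n : ℕ) :
    D b (m + 1) (n + 1) = b ^ (m + 1) * D b (m + 1) n + D b m (n + 1) + b ^ m * D b m n := by
  rw [D_eq h, D_eq h, D_eq h, D_eq h]
  exact recA h m n

theorem D_rec2 {b : K} (h : NR b) (m n : ℕ) :
    D b (m + 1) (n + 1) = b ^ (n + 1) * D b m (n + 1) + D b (m + 1) n + b ^ n * D b m n := by
  rw [D_eq', D_eq', D_eq', D_eq']
  exact recA h n m

theorem D_rec3 {b : K} (h : NR b) (m n : ℕ) :
    (1 - b ^ (m + 1)) * D b (m + 1) n = (1 - b ^ (n + 1)) * D b m (n + 1) +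
      (b ^ m - b ^ n) * D b m n := by
  linear_combination D_rec1 h m n - D_rec2 h m n

/-- The three-term recurrence in `n`. -/
theorem D_rec {b : K} (h : NR b) (m n : ℕ) :
    (1 - b ^ (n + 2)) * D b m (n + 2) =
      (1 + b ^ (n + 1) - b ^ m * (1 + b ^ (n + 2))) * D b m (n + 1) +
        b ^ m * (1 - b ^ (n + 1)) * D b m n := by
  linear_combination (1 - b ^ (m + 1)) * D_rec1 h m n - D_rec3 h m (n + 1) +
    b ^ (m + 1) * D_rec3 h m n

theorem D_zero (b : K) (m : ℕ) : D b m 0 = 1 := by
  simp [D, gb_zero_right]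

theorem D_one {b : K} (h : NR b) (m : ℕ) :
    (1 - b) * D b m 1 = 2 - b ^ m * (1 + b) := by
  have h1 := h.sub 0
  rw [zero_add, pow_one] at h1
  simp only [D, gb, sum_range_succ, prod_range_succ, range_zero, sum_empty, prod_empty]
  simp
  field_simp
  ring

end Pool.Agent.Q281.Del
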