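import Pool.Agent.Q281.Del.Fin

set_option autoImplicit false

/-!
# Integrality of the quotient
-/

namespace Pool.Agent.Q281.Del

open Finset Pool.Agent.Q281.QC Polynomial

/-- Evaluation of integer polynomials at `q`. -/
noncomputable abbrev ev : Polynomial ℤ →+* RatFunc ℚ :=
  (algebraMap (Polynomial ℚ) (RatFunc ℚ)).comp (mapRingHom (Int.castRingHom ℚ))

theorem ev_X : ev X = q := by
  rw [RingHom.comp_apply, coe_mapRingHom, Polynomial.map_X]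
  exact RatFunc.algebraMap_X

/-- `ℤ[q, q⁻¹]` -/
noncomputable def Lau : Subring (RatFunc ℚ) where
  carrier := {x | ∃ (f : Polynomial ℤ) (N : ℕ), x * q ^ N = ev f}
  mul_mem' := by
    rintro x y ⟨f, N, e⟩ ⟨g, M, e'⟩
    exact ⟨f * g, N + M, by rw [map_mul, ← e, ← e', pow_add]; ring⟩
  one_mem' := ⟨1, 0, by simp⟩
  add_mem' := by
    rintro x y ⟨f, N, e⟩ ⟨g, M, e'⟩
    exact ⟨f * X ^ M + g * X ^ N, N + M, by
      rw [map_add, map_mul, map_mul, map_pow, map_pow, ev_X, ← e, ← e', pow_add]; ring⟩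
  zero_mem' := ⟨0, 0, by simp⟩
  neg_mem' := by
    rintro x ⟨f, N, e⟩
    exact ⟨-f, N, by rw [map_neg, ← e]; ring⟩

theorem q_lau : q ∈ Lau := ⟨X, 0, by rw [ev_X]; simp⟩

theorem qinv_lau : q⁻¹ ∈ Lau := ⟨1, 1, by rw [pow_one, inv_mul_cancel₀ q_ne, map_one]⟩

theorem D_lau {b : RatFunc ℚ} (h : NR b) (hb : b ∈ Lau) (m n : ℕ) : D b m n ∈ Lau :=
  sum_mem fun _ _ => mul_mem (mul_mem (pow_mem hb _) (gb_mem h _ hb _ _)) (gb_mem h _ hb _ _)

/-- From a congruence modulo `δ ^ 2` to divisibility in `ℤ[q, q⁻¹]`. -/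
theorem quot {p : ℕ} (hp : p.Prime) {x z : RatFunc ℚ} (hx : x ∈ Lau) (hz : z ∈ Loc (Phi p))
    (e : x = del p ^ 2 * z) :
    ∃ (g : Polynomial ℤ) (N : ℕ), x = (∑ i ∈ Finset.range p, q ^ i) ^ 2 * (ev g / q ^ N) := by
  obtain ⟨f, N, hf⟩ := hx
  have h1 : ev f = del p ^ 2 * (z * q ^ N) := by rw [← hf, e]; ring
  have h2 := dvd_num_of_del (mul_mem hz (pow_mem (q_mem p) N)) h1
  have h3 : (ev f).num = f.map (Int.castRingHom ℚ) := by
    change (algebraMap (Polynomial ℚ) (RatFunc ℚ) (f.map (Int.castRingHom ℚ))).num = _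
    rw [RatFunc.num_algebraMap]
  rw [h3] at h2
  have h4 : cyclotomic p ℤ ^ 2 ∣ f := by
    change cyclotomic p ℚ ^ 2 ∣ _ at h2
    rw [← map_cyclotomic_int p ℚ, ← Polynomial.map_pow] at h2
    exact (Polynomial.map_dvd_map _ (Int.castRingHom ℚ).injective_int
      ((cyclotomic.monic p ℤ).pow 2)).1 h2
  obtain ⟨g, rfl⟩ := h4
  refine ⟨g, N, ?_⟩
  have h5 : ev (cyclotomic p ℤ) = ∑ i ∈ Finset.range p, q ^ i := by
    have := Fact.mk hp
    rw [cyclotomic_prime, map_sum]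
    exact Finset.sum_congr rfl fun i _ => by rw [map_pow, ev_X]
  rw [map_mul, map_pow, h5] at hf
  have h6 := pow_ne_zero N q_ne
  rw [mul_div_assoc', eq_div_iff h6]
  exact hf

theorem one_sub_q : (1 : RatFunc ℚ) - q ≠ 0 := by
  have := nr_q.sub 0
  rwa [zero_add, pow_one] at this

/-- `[n]` -/
noncomputable def qint (n : ℕ) : RatFunc ℚ := ∑ i ∈ Finset.range n, q ^ i

theorem qint_mul (n : ℕ) : (1 - q) * qint n = 1 - q ^ n := mul_neg_geom_sum q n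

/-- The sum of the problem. -/
noncomputable def SS (p m : ℕ) : RatFunc ℚ :=
  ∑ j ∈ Finset.range p, qint (2 * j + 1) * (q ^ j)⁻¹ * (D q m j * D q⁻¹ m j)

theorem SS_lau (p m : ℕ) : SS p m ∈ Lau := by
  refine sum_mem fun j _ => mul_mem (mul_mem (sum_mem fun i _ => pow_mem q_lau i) ?_)
    (mul_mem (D_lau nr_q q_lau _ _) (D_lau nr_qinv qinv_lau _ _))
  rw [← inv_pow]
  exact pow_mem qinv_lau j

theorem SS_mul (p m : ℕ) : (1 - q) * SS p m =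
    ∑ j ∈ Finset.range p, (1 - q ^ (2 * j + 1)) * ((q ^ j)⁻¹ * (D q m j * D q⁻¹ m j)) := by
  rw [SS, Finset.mul_sum]
  refine Finset.sum_congr rfl fun j _ => ?_
  rw [← qint_mul]
  ring

theorem geo_lau (m : ℕ) : (1 - q ^ (2 * m)) / (1 - q ^ 2) ∈ Lau := by
  have h0 : (1 : RatFunc ℚ) - q ^ 2 ≠ 0 := nr_q.sub 1
  have e : (1 - q ^ (2 * m)) / (1 - q ^ 2) = ∑ i ∈ Finset.range m, (q ^ 2) ^ i := by
    rw [div_eq_iff h0, pow_mul, mul_comm]
    exact (mul_neg_geom_sum (q ^ 2) m).symm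
  rw [e]
  exact sum_mem fun i _ => pow_mem (pow_mem q_lau 2) i

theorem rhs2_lau (m : ℕ) : q * (1 - (q ^ (2 * m))⁻¹) / (1 - q ^ 2) ∈ Lau := by
  have e : q * (1 - (q ^ (2 * m))⁻¹) / (1 - q ^ 2) =
      -(q * (q⁻¹) ^ (2 * m) * ((1 - q ^ (2 * m)) / (1 - q ^ 2))) := by
    have := pow_ne_zero (2 * m) q_ne
    rw [inv_pow]
    field_simp
    ring
  rw [e]
  exact neg_mem (mul_mem (mul_mem q_lau (pow_mem qinv_lau _)) (geo_lau m))

theorem rhs3_lau (m : ℕ) : q * (1 - q ^ (2 * m + 2)) / (1 - q ^ 2) ∈ Lau := by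
  rw [mul_div_assoc, show 2 * m + 2 = 2 * (m + 1) by ring]
  exact mul_mem q_lau (geo_lau (m + 1))

theorem finish {p m : ℕ} (hp : p.Prime) {B : RatFunc ℚ} (hB : B ∈ Lau)
    (h : Cg p 2 ((1 - q) * SS p m) ((1 - q) * B)) :
    ∃ (g : Polynomial ℤ) (N : ℕ), SS p m - B = (∑ i ∈ Finset.range p, q ^ i) ^ 2 * (ev g / q ^ N) := by
  obtain ⟨z, hz, e⟩ := h
  have h1 : (1 - q)⁻¹ ∈ Loc (Phi p) := by
    have := one_sub_inv_mem (a := 1) hp.pos (Nat.not_dvd_of_pos_of_lt one_pos hp.one_lt)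
    rwa [pow_one] at this
  refine quot hp (sub_mem (SS_lau p m) hB) (mul_mem h1 hz) ?_
  have h0 := one_sub_q
  field_simp
  linear_combination e

theorem main {p : ℕ} (hp : p.Prime) (h2 : p ≠ 2) {m : ℕ} (hm : 0 < m) :
    (p ∣ m → ∃ (g : Polynomial ℤ) (N : ℕ), SS p m - q * (1 - (q ^ (2 * m))⁻¹) / (1 - q ^ 2) =
      (∑ i ∈ Finset.range p, q ^ i) ^ 2 * (ev g / q ^ N)) ∧
    (p ∣ m + 1 → ∃ (g : Polynomial ℤ) (N : ℕ), SS p m - q * (1 - q ^ (2 * m + 2)) / (1 - q ^ 2) =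
      (∑ i ∈ Finset.range p, q ^ i) ^ 2 * (ev g / q ^ N)) ∧
    (¬ p ∣ m → ¬ p ∣ m + 1 → ∃ (g : Polynomial ℤ) (N : ℕ), SS p m - 0 =
      (∑ i ∈ Finset.range p, q ^ i) ^ 2 * (ev g / q ^ N)) := by
  obtain ⟨h, rfl⟩ := hp.odd_of_ne_two h2
  have hh : 0 < h := by
    rcases Nat.eq_zero_or_pos h with rfl | h'
    · exact absurd hp (by norm_num)
    · exact h'
  have hs := sum_cg (2 * h) m
  rw [← SS_mul] at hs
  refine ⟨?_, ?_, ?_⟩
  · rintro ⟨c, rfl⟩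
    have hc : 0 < c := by
      rcases Nat.eq_zero_or_pos c with rfl | h'
      · simp at hm
      · exact h'
    exact finish hp (rhs2_lau _) (hs.trans (case2 hh hc))
  · rintro ⟨c, hc⟩
    exact finish hp (rhs3_lau _) (hs.trans (case3 hh hc))
  · intro h3 h4
    refine finish hp (zero_mem _) (hs.trans ?_)
    rw [mul_zero]
    exact case1 h3 h4

end Pool.Agent.Q281.Del
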