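import Pool.Agent.Q281.Del.Gauss

set_option autoImplicit false

/-!
# The product formula for q-Delannoy numbers
-/

namespace Pool.Agent.Q281.Del

open Finset

variable {K : Type*} [Field K]

/-- The three-term recurrence with parameter `X`. -/
def Rec (q X : K) (a : ℕ → K) : Prop := a 0 = 1 ∧ (1 - q) * a 1 = 2 - X * (1 + q) ∧
  ∀ n, (1 - q ^ (n + 2)) * a (n + 2) =
    (1 + q ^ (n + 1) - X * (1 + q ^ (n + 2))) * a (n + 1) + X * (1 - q ^ (n + 1)) * a n

/-- The system satisfied by `u n = a n * b n` and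
`r (n+1) = (1 - q^(n+1)) * (Y * a (n+1) * b n + X * a n * b (n+1))`. -/
def Sys (q Z : K) (u r : ℕ → K) : Prop := u 0 = 1 ∧ r 0 = 0 ∧
  q * (1 - q) ^ 2 * u 1 = 4 * q - (1 + q) ^ 2 - q * (1 + q) * r 1 ∧
  q * r 1 = 2 * (q * Z - 1 - q) ∧
  (∀ n, q * (1 - q ^ (n + 2)) ^ 2 * u (n + 2) =
    (q * (1 + q ^ (n + 1)) ^ 2 - (1 + q ^ (n + 2)) ^ 2) * u (n + 1) +
      q * (1 + q ^ (n + 1)) * r (n + 1) - q * (1 + q ^ (n + 2)) * r (n + 2) +
      (1 - q ^ (n + 1)) ^ 2 * u n) ∧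
  ∀ n, q * r (n + 2) = (1 + q ^ (n + 1)) * (q * Z) * u (n + 1) - 2 * (1 + q ^ (n + 2)) * u (n + 1)
    + 2 * (1 + q ^ n) * u n - (1 + q ^ (n + 1)) * Z * u n + r n

theorem Sys.unique {q Z : K} (hq0 : q ≠ 0) (h : NR q) {u r u' r' : ℕ → K} (h1 : Sys q Z u r)
    (h2 : Sys q Z u' r') : ∀ n, u n = u' n ∧ r n = r' n := by
  obtain ⟨a0, b0, a1, b1, ha, hb⟩ := h1
  obtain ⟨a0', b0', a1', b1', ha', hb'⟩ := h2
  have hr1 : r 1 = r' 1 := mul_left_cancel₀ hq0 (by rw [b1, b1'])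
  have hq1 := h.sub 0
  rw [zero_add, pow_one] at hq1
  have hu1 : u 1 = u' 1 := by
    refine mul_left_cancel₀ (mul_ne_zero hq0 (pow_ne_zero 2 hq1)) ?_
    rw [a1, a1', hr1]
  have key : ∀ n, (u n = u' n ∧ r n = r' n) ∧ (u (n + 1) = u' (n + 1) ∧ r (n + 1) = r' (n + 1)) := by
    intro n
    induction n with
    | zero => exact ⟨⟨by rw [a0, a0'], by rw [b0, b0']⟩, hu1, hr1⟩
    | succ n ih =>
      obtain ⟨⟨e1, e2⟩, e3, e4⟩ := ih
      have hr : r (n + 2) = r' (n + 2) := mul_left_cancel₀ hq0 (by rw [hb, hb', e1, e2, e3])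
      refine ⟨⟨e3, e4⟩, ?_, hr⟩
      refine mul_left_cancel₀ (mul_ne_zero hq0 (pow_ne_zero 2 (h.sub (n + 1)))) ?_
      rw [show n + 1 + 1 = n + 2 by ring, ha, ha', e1, e3, e4, hr]
  exact fun n => (key n).1

/-- The second sequence attached to the product of two solutions. -/
def rr (q X Y : K) (a b : ℕ → K) : ℕ → K
  | 0 => 0
  | n + 1 => (1 - q ^ (n + 1)) * (Y * a (n + 1) * b n + X * a n * b (n + 1))

theorem rr_succ (q X Y : K) (a b : ℕ → K) (n : ℕ) : rr q X Y a b (n + 1) =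
    (1 - q ^ (n + 1)) * (Y * a (n + 1) * b n + X * a n * b (n + 1)) := rfl

theorem rr_lem {q X Y : K} {a b : ℕ → K} (ha : Rec q X a) (hb : Rec q Y b) (n : ℕ) :
    (1 - q ^ (n + 1)) * (a n * b (n + 1) + a (n + 1) * b n) =
      (2 * (1 + q ^ n) - (X + Y) * (1 + q ^ (n + 1))) * (a n * b n) + rr q X Y a b n := by
  obtain ⟨a0, a1, ha⟩ := ha
  obtain ⟨b0, b1, hb⟩ := hb
  cases n with
  | zero =>
    simp only [zero_add, pow_one, a0, b0, rr, pow_zero]
    linear_combination a1 + b1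
  | succ n =>
    have A := ha n
    have B := hb n
    simp only [rr]
    linear_combination (b (n + 1)) * A + (a (n + 1)) * B

/-- The product of two solutions. -/
theorem sys_of_rec {q X Y : K} (hXY : q * (X * Y) = 1) {a b : ℕ → K} (ha : Rec q X a)
    (hb : Rec q Y b) : Sys q (X + Y) (fun n => a n * b n) (rr q X Y a b) := by
  have hL := rr_lem ha hb
  obtain ⟨a0, a1, ha⟩ := ha
  obtain ⟨b0, b1, hb⟩ := hb
  refine ⟨by simp [a0, b0], rfl, ?_, ?_, ?_, ?_⟩
  · simp only [zero_add, pow_one, a0, b0, rr]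
    linear_combination (q * (1 - q) * b 1 + q * (1 + q) * Y) * a1 +
      (q * (2 - X * (1 + q)) + q * (1 + q) * X) * b1 + (-(1 + q) ^ 2) * hXY
  · simp only [zero_add, pow_one, a0, b0, rr]
    linear_combination (q * Y) * a1 + (q * X) * b1 - 2 * (1 + q) * hXY
  · intro n
    have A := ha n
    have B := hb n
    simp only [rr]
    linear_combination (q * (1 - q ^ (n + 2)) * a (n + 2)) * B +
      (q * ((1 + q ^ (n + 1) - Y * (1 + q ^ (n + 2))) * b (n + 1) + Y * (1 - q ^ (n + 1)) * b n)) * A +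
      (q * (1 + q ^ (n + 2)) * Y * b (n + 1)) * A + (q * (1 + q ^ (n + 2)) * X * a (n + 1)) * B +
      ((1 - q ^ (n + 1)) ^ 2 * (a n * b n) - (1 + q ^ (n + 2)) ^ 2 * (a (n + 1) * b (n + 1))) * hXY
  · intro n
    have A := ha n
    have B := hb n
    have L := hL n
    simp only [rr_succ]
    linear_combination (q * Y * b (n + 1)) * A + (q * X * a (n + 1)) * B +
      ((1 - q ^ (n + 1)) * (a n * b (n + 1) + a (n + 1) * b n) -
        2 * (1 + q ^ (n + 2)) * (a (n + 1) * b (n + 1))) * hXY + L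

/-- `(-1;q)_k (-q;q)_k` -/
noncomputable def W (q : K) (k : ℕ) : K := ∏ i ∈ range k, ((1 + q ^ i) * (1 + q ^ (i + 1)))

/-- The basis. -/
noncomputable def ee (q Z : K) (k : ℕ) : K :=
  ∏ i ∈ range k, (q ^ (i + 1) * (q ^ (i + 1) * Z - 1 - q ^ (2 * i + 1)) / (1 - q ^ (i + 1)) ^ 2)

/-- The coefficients of `u`. -/
noncomputable def U (q : K) (n k : ℕ) : K := (-1) ^ n * (q ^ (n * (k + 1)))⁻¹ * gb q (n + k) (2 * k)

/-- The coefficients of `r`. -/
noncomputable def R (q : K) (n k : ℕ) : K :=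
  -(U q n k * ((1 - q ^ k) * (1 - q ^ n) ^ 2)) / (1 - q ^ (n + k))

theorem W_succ (q : K) (k : ℕ) : W q (k + 1) = W q k * ((1 + q ^ k) * (1 + q ^ (k + 1))) := by
  rw [W, prod_range_succ, W]

theorem ee_succ {q : K} (h : NR q) (Z : K) (k : ℕ) :
    (1 - q ^ (k + 1)) ^ 2 * ee q Z (k + 1) =
      q ^ (k + 1) * (q ^ (k + 1) * Z - 1 - q ^ (2 * k + 1)) * ee q Z k := by
  rw [ee, prod_range_succ, ← ee]
  have := h.sub k
  field_simp

theorem gb1 {b : K} (h : NR b) (c l : ℕ) (hc : 0 < c + l) :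
    gb b (c + l - 1) c = ph b (c + l - 1) * (1 - b ^ l) / (ph b c * ph b l) := by
  cases l with
  | zero =>
    rw [gb_of_lt b (by omega : c + 0 - 1 < c)]
    simp
  | succ l =>
    rw [show c + (l + 1) - 1 = l + c by omega, gb_add h, ph_succ]
    have h1 := ph_ne h l
    have h2 := ph_ne h c
    have h3 := h.sub l
    field_simp

theorem gb2 {b : K} (h : NR b) (c l : ℕ) (hc : 1 < c + l) :
    b * gb b (c + l - 2) c =
      ph b (c + l - 2) * ((1 - b ^ l) * (b - b ^ l)) / (ph b c * ph b l) := by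
  match l with
  | 0 =>
    rw [gb_of_lt b (by omega : c + 0 - 2 < c)]
    simp
  | 1 =>
    rw [gb_of_lt b (by omega : c + 1 - 2 < c)]
    simp
  | l + 2 =>
    rw [show c + (l + 2) - 2 = l + c by omega, gb_add h, ph_succ, ph_succ]
    have h1 := ph_ne h l
    have h2 := ph_ne h c
    have h3 := h.sub l
    have h4 := h.sub (l + 1)
    field_simp
    ring

theorem U_of_lt (q : K) {n k : ℕ} (h : n < k) : U q n k = 0 := by
  rw [U, gb_of_lt q (by omega : n + k < 2 * k), mul_zero]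

theorem R_of_lt (q : K) {n k : ℕ} (h : n < k) : R q n k = 0 := by
  rw [R, U_of_lt q h]
  simp

/-- The common factor. -/
noncomputable def HH (q : K) (n k l : ℕ) : K :=
  (-1) ^ n * (q ^ (n * (k + 2)))⁻¹ * (ph q (n + k) / (ph q (2 * k + 2) * ph q l))

section

variable {q : K} (hq : q ≠ 0) (h : NR q) {n k l : ℕ} (hn : n + 1 = k + l)

include h hn

theorem U_a : U q (n + 2) (k + 1) = HH q n k l * (q ^ (2 * (k + 2)))⁻¹ *
    ((1 - q ^ (n + k + 1)) * (1 - q ^ (n + k + 2)) * (1 - q ^ (n + k + 3))) := by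
  rw [U, HH, show n + 2 + (k + 1) = l + 2 * (k + 1) by omega, gb_add h,
    show l + 2 * (k + 1) = n + k + 1 + 1 + 1 by omega, ph_succ, ph_succ, ph_succ,
    show (n + 2) * (k + 1 + 1) = n * (k + 2) + 2 * (k + 2) by ring, pow_add q (n * (k + 2)), mul_inv,
    show 2 * (k + 1) = 2 * k + 2 by ring]
  ring

theorem U_b : U q (n + 1) (k + 1) = -(HH q n k l * (q ^ (k + 2))⁻¹ *
    ((1 - q ^ (n + k + 1)) * (1 - q ^ (n + k + 2)) * (1 - q ^ l))) := by
  have h1 := gb1 h (2 * k + 2) l (by omega)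
  rw [show 2 * k + 2 + l - 1 = n + 1 + (k + 1) by omega] at h1
  rw [U, HH, show 2 * (k + 1) = 2 * k + 2 by ring, h1,
    show n + 1 + (k + 1) = n + k + 1 + 1 by omega, ph_succ, ph_succ,
    show (n + 1) * (k + 1 + 1) = n * (k + 2) + (k + 2) by ring, pow_add q (n * (k + 2)), mul_inv]
  ring

theorem U_c : q * U q n (k + 1) = HH q n k l * ((1 - q ^ (n + k + 1)) * ((1 - q ^ l) * (q - q ^ l))) := by
  have h1 := gb2 h (2 * k + 2) l (by omega)
  rw [show 2 * k + 2 + l - 2 = n + (k + 1) by omega] at h1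
  rw [U, HH, show 2 * (k + 1) = 2 * k + 2 by ring,
    show q * ((-1) ^ n * (q ^ (n * (k + 1 + 1)))⁻¹ * gb q (n + (k + 1)) (2 * k + 2)) =
      (-1) ^ n * (q ^ (n * (k + 1 + 1)))⁻¹ * (q * gb q (n + (k + 1)) (2 * k + 2)) by ring, h1,
    show n + (k + 1) = n + k + 1 by omega, ph_succ]
  ring

theorem U_d (hq : q ≠ 0) : U q (n + 1) k = -(HH q n k l * q ^ n * (q ^ (k + 1))⁻¹ *
    ((1 - q ^ (n + k + 1)) * ((1 - q ^ (2 * k + 1)) * (1 - q ^ (2 * k + 2))))) := by
  rw [U, HH, show n + 1 + k = l + 2 * k by omega, gb_add h, show l + 2 * k = n + k + 1 by omega,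
    ph_succ, ph_succ q (2 * k + 1), ph_succ q (2 * k),
    show (n + 1) * (k + 1) = n * (k + 1) + (k + 1) by ring,
    show n * (k + 2) = n * (k + 1) + n by ring, pow_add q (n * (k + 1)), pow_add q (n * (k + 1)),
    mul_inv, mul_inv]
  have h1 := ph_ne h (2 * k)
  have h2 := ph_ne h l
  have h3 := h.sub (2 * k)
  have h4 := h.sub (2 * k + 1)
  have h5 := pow_ne_zero n hq
  have h6 := pow_ne_zero (n * (k + 1)) hq
  have h7 := pow_ne_zero (k + 1) hq
  rw [show 2 * k + 1 + 1 = 2 * k + 2 by ring] at h4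
  field_simp
  ring

theorem U_e (hq : q ≠ 0) : U q n k = HH q n k l * q ^ n *
    ((1 - q ^ l) * ((1 - q ^ (2 * k + 1)) * (1 - q ^ (2 * k + 2)))) := by
  have h1 := gb1 h (2 * k) l (by omega)
  rw [show 2 * k + l - 1 = n + k by omega] at h1
  rw [U, HH, h1, ph_succ q (2 * k + 1), ph_succ q (2 * k),
    show n * (k + 2) = n * (k + 1) + n by ring, pow_add q (n * (k + 1)), mul_inv]
  have h1 := ph_ne h (2 * k)
  have h2 := ph_ne h l
  have h3 := h.sub (2 * k)
  have h4 := h.sub (2 * k + 1)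
  have h5 := pow_ne_zero n hq
  have h6 := pow_ne_zero (n * (k + 1)) hq
  rw [show 2 * k + 1 + 1 = 2 * k + 2 by ring] at h4
  field_simp

end

section

variable {q : K} {n k l : ℕ}

theorem forms (hq : q ≠ 0) (h : NR q) (hn : n + 1 = k + l) :
    ∃ H : K, U q (n + 2) (k + 1) = H * (q ^ 4 * (q ^ k) ^ 2)⁻¹ * ((1 - q * q ^ k * q ^ n) *
        (1 - q ^ 2 * q ^ k * q ^ n) * (1 - q ^ 3 * q ^ k * q ^ n)) ∧
      U q (n + 1) (k + 1) = -(H * (q ^ 2 * q ^ k)⁻¹ * ((1 - q * q ^ k * q ^ n) *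
        (1 - q ^ 2 * q ^ k * q ^ n) * (1 - q * q ^ n / q ^ k))) ∧
      U q n (k + 1) = H * ((1 - q * q ^ k * q ^ n) * ((1 - q * q ^ n / q ^ k) * (1 - q ^ n / q ^ k))) ∧
      U q (n + 1) k = -(H * q ^ n * (q * q ^ k)⁻¹ * ((1 - q * q ^ k * q ^ n) *
        ((1 - q * (q ^ k) ^ 2) * (1 - q ^ 2 * (q ^ k) ^ 2)))) ∧
      U q n k = H * q ^ n * ((1 - q * q ^ n / q ^ k) *
        ((1 - q * (q ^ k) ^ 2) * (1 - q ^ 2 * (q ^ k) ^ 2))) ∧
      R q (n + 2) (k + 1) = -(H * (q ^ 4 * (q ^ k) ^ 2)⁻¹ * ((1 - q * q ^ k * q ^ n) *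
        (1 - q ^ 2 * q ^ k * q ^ n)) * ((1 - q * q ^ k) * (1 - q ^ 2 * q ^ n) ^ 2)) ∧
      R q (n + 1) (k + 1) = H * (q ^ 2 * q ^ k)⁻¹ * ((1 - q * q ^ k * q ^ n) *
        (1 - q * q ^ n / q ^ k)) * ((1 - q * q ^ k) * (1 - q * q ^ n) ^ 2) ∧
      R q n (k + 1) = -(H * ((1 - q * q ^ n / q ^ k) * (1 - q ^ n / q ^ k)) *
        ((1 - q * q ^ k) * (1 - q ^ n) ^ 2)) := by
  have hA := pow_ne_zero k hq
  have hL : q ^ l = q * q ^ n / q ^ k := by
    rw [eq_div_iff hA, ← pow_add, ← pow_succ', hn, add_comm]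
  have p1 : q ^ (n + k + 1) = q * q ^ k * q ^ n := by ring
  have p2 : q ^ (n + k + 2) = q ^ 2 * q ^ k * q ^ n := by ring
  have p3 : q ^ (n + k + 3) = q ^ 3 * q ^ k * q ^ n := by ring
  have h1 := h.sub (n + k)
  have h2 := h.sub (n + k + 1)
  have h3 := h.sub (n + k + 2)
  rw [p1] at h1
  rw [show n + k + 1 + 1 = n + k + 2 by ring, p2] at h2
  rw [show n + k + 2 + 1 = n + k + 3 by ring, p3] at h3
  have e1 := U_a h hn
  have e2 := U_b h hn
  have e3 := U_c h hn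
  have e5 := U_d h hn hq
  have e6 := U_e h hn hq
  rw [p1, p2, p3, show q ^ (2 * (k + 2)) = q ^ 4 * (q ^ k) ^ 2 by ring] at e1
  rw [p1, p2, hL, show q ^ (k + 2) = q ^ 2 * q ^ k by ring] at e2
  rw [p1, hL] at e3
  rw [p1, show q ^ (k + 1) = q * q ^ k by ring, show q ^ (2 * k + 1) = q * (q ^ k) ^ 2 by ring,
    show q ^ (2 * k + 2) = q ^ 2 * (q ^ k) ^ 2 by ring] at e5
  rw [hL, show q ^ (2 * k + 1) = q * (q ^ k) ^ 2 by ring,
    show q ^ (2 * k + 2) = q ^ 2 * (q ^ k) ^ 2 by ring] at e6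
  have e4 : U q n (k + 1) = HH q n k l * ((1 - q * q ^ k * q ^ n) *
      ((1 - q * q ^ n / q ^ k) * (1 - q ^ n / q ^ k))) := by
    refine mul_left_cancel₀ hq ?_
    rw [e3]
    ring
  refine ⟨HH q n k l, e1, e2, e4, e5, e6, ?_, ?_, ?_⟩
  · rw [R, e1, show n + 2 + (k + 1) = n + k + 3 by ring, p3, show q ^ (k + 1) = q * q ^ k by ring,
      show q ^ (n + 2) = q ^ 2 * q ^ n by ring]
    generalize HH q n k l = H
    rw [div_eq_iff h3]
    ring
  · rw [R, e2, show n + 1 + (k + 1) = n + k + 2 by ring, p2, show q ^ (k + 1) = q * q ^ k by ring,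
      show q ^ (n + 1) = q * q ^ n by ring]
    generalize HH q n k l = H
    rw [div_eq_iff h2]
    ring
  · rw [R, e4, show n + (k + 1) = n + k + 1 by ring, p1, show q ^ (k + 1) = q * q ^ k by ring]
    generalize HH q n k l = H
    rw [div_eq_iff h1]
    ring

end

theorem coef3 {q : K} (hq : q ≠ 0) (h : NR q) (n k : ℕ) :
    q * (1 - q ^ (n + 2)) ^ 2 * U q (n + 2) k =
      (q * (1 + q ^ (n + 1)) ^ 2 - (1 + q ^ (n + 2)) ^ 2) * U q (n + 1) k +
      q * (1 + q ^ (n + 1)) * R q (n + 1) k - q * (1 + q ^ (n + 2)) * R q (n + 2) k +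
      (1 - q ^ (n + 1)) ^ 2 * U q n k := by
  cases k with
  | zero =>
    simp only [U, R, Nat.mul_zero, gb_zero_right]
    have h5 := pow_ne_zero n hq
    simp only [zero_add, mul_one, add_zero, pow_zero, sub_self, zero_mul, mul_zero, neg_zero,
      zero_div, pow_add, pow_one]
    field_simp
    ring
  | succ k =>
    rcases le_or_gt k (n + 1) with hk | hk
    · obtain ⟨l, hl⟩ := Nat.exists_eq_add_of_le hk
      obtain ⟨H, e1, e2, e3, e4, e5, e6, e7, e8⟩ := forms hq h hl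
      rw [e1, e2, e3, e6, e7, show q ^ (n + 2) = q ^ 2 * q ^ n by ring,
        show q ^ (n + 1) = q * q ^ n by ring]
      have hA := pow_ne_zero k hq
      clear e1 e2 e3 e4 e5 e6 e7 e8
      generalize q ^ k = A at *
      generalize q ^ n = P at *
      field_simp
      ring
    · rw [U_of_lt q (by omega : n + 2 < k + 1), U_of_lt q (by omega : n + 1 < k + 1),
        U_of_lt q (by omega : n < k + 1), R_of_lt q (by omega : n + 2 < k + 1),
        R_of_lt q (by omega : n + 1 < k + 1)]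
      ring

theorem coef1 {q : K} (hq : q ≠ 0) (h : NR q) (n k : ℕ) :
    (1 + q ^ (n + 1)) * ((q ^ (2 * k + 2))⁻¹ * (1 - q ^ (k + 1)) ^ 2 * (U q n k - q * U q (n + 1) k) +
      (q ^ (k + 2))⁻¹ * (1 + q ^ (2 * k + 3)) * ((1 + q ^ k) * (1 + q ^ (k + 1))) *
        (U q n (k + 1) - q * U q (n + 1) (k + 1))) =
    ((1 + q ^ k) * (1 + q ^ (k + 1))) * (2 * (1 + q ^ n) * U q n (k + 1) -
      2 * (1 + q ^ (n + 2)) * U q (n + 1) (k + 1) + R q n (k + 1) - q * R q (n + 2) (k + 1)) := by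
  rcases le_or_gt k (n + 1) with hk | hk
  · obtain ⟨l, hl⟩ := Nat.exists_eq_add_of_le hk
    obtain ⟨H, e1, e2, e3, e4, e5, e6, e7, e8⟩ := forms hq h hl
    rw [e2, e3, e4, e5, e6, e8, show q ^ (n + 2) = q ^ 2 * q ^ n by ring,
      show q ^ (n + 1) = q * q ^ n by ring, show q ^ (2 * k + 3) = q ^ 3 * (q ^ k) ^ 2 by ring,
      show q ^ (2 * k + 2) = q ^ 2 * (q ^ k) ^ 2 by ring, show q ^ (k + 2) = q ^ 2 * q ^ k by ring,
      show q ^ (k + 1) = q * q ^ k by ring]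
    have hA := pow_ne_zero k hq
    clear e1 e2 e3 e4 e5 e6 e7 e8
    generalize q ^ k = A at *
    generalize q ^ n = P at *
    field_simp
    ring
  · rw [U_of_lt q (by omega : n < k), U_of_lt q (by omega : n + 1 < k),
      U_of_lt q (by omega : n + 1 < k + 1),
      U_of_lt q (by omega : n < k + 1), R_of_lt q (by omega : n + 2 < k + 1),
      R_of_lt q (by omega : n < k + 1)]
    ring

theorem coef0 {q : K} (hq : q ≠ 0) (n : ℕ) :
    (1 + q ^ (n + 1)) * (q⁻¹ * (1 + q) * (U q n 0 - q * U q (n + 1) 0)) =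
      2 * (1 + q ^ n) * U q n 0 - 2 * (1 + q ^ (n + 2)) * U q (n + 1) 0 + R q n 0 -
        q * R q (n + 2) 0 := by
  simp only [U, R, Nat.mul_zero, gb_zero_right]
  have h5 := pow_ne_zero n hq
  simp only [zero_add, mul_one, add_zero, pow_zero, sub_self, zero_mul, mul_zero, neg_zero,
    zero_div, pow_add, pow_one]
  field_simp
  ring

/-- The expansion of `u`. -/
noncomputable def uh (q Z : K) (n : ℕ) : K := ∑ k ∈ range (n + 1), U q n k * (W q k * ee q Z k)

/-- The expansion of `r`. -/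
noncomputable def rh (q Z : K) (n : ℕ) : K := ∑ k ∈ range (n + 1), R q n k * (W q k * ee q Z k)

theorem uh_eq (q Z : K) {n N : ℕ} (h : n + 1 ≤ N) :
    uh q Z n = ∑ k ∈ range N, U q n k * (W q k * ee q Z k) := by
  rw [uh]
  refine sum_subset (range_mono h) fun k _ hk => ?_
  rw [mem_range] at hk
  rw [U_of_lt q (by omega), zero_mul]

theorem rh_eq (q Z : K) {n N : ℕ} (h : n + 1 ≤ N) :
    rh q Z n = ∑ k ∈ range N, R q n k * (W q k * ee q Z k) := by
  rw [rh]
  refine sum_subset (range_mono h) fun k _ hk => ?_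
  rw [mem_range] at hk
  rw [R_of_lt q (by omega), zero_mul]

theorem sys_uh {q : K} (hq : q ≠ 0) (h : NR q) (Z : K) : Sys q Z (uh q Z) (rh q Z) := by
  have hq1 := h.sub 0
  rw [zero_add, pow_one] at hq1
  have hq2 := h.sub 1
  rw [show 1 + 1 = 2 by norm_num] at hq2
  have hu1 : uh q Z 1 = -q⁻¹ - q⁻¹ ^ 2 * (2 * (1 + q) * (q * (q * Z - 1 - q) / (1 - q) ^ 2)) := by
    have : gb q 2 2 = 1 := gb_self h 2
    simp only [uh, sum_range_succ, range_zero, sum_empty, U, W, ee, prod_range_succ, prod_empty,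
      Nat.mul_zero, gb_zero_right]
    simp only [zero_add, pow_one, mul_one, pow_zero, one_mul, Nat.reduceAdd, this]
    field_simp
    ring
  have hr1 : rh q Z 1 = 2 * q⁻¹ * (q * Z - 1 - q) := by
    have : gb q 2 2 = 1 := gb_self h 2
    have h1q : 1 + q ≠ 0 := by
      intro h0
      apply hq2
      linear_combination (1 - q) * h0
    simp only [rh, R, sum_range_succ, range_zero, sum_empty, U, W, ee, prod_range_succ, prod_empty,
      Nat.mul_zero, gb_zero_right]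
    simp only [zero_add, pow_one, mul_one, pow_zero, one_mul, Nat.reduceAdd, this]
    field_simp
    ring
  refine ⟨?_, ?_, ?_, ?_, ?_, ?_⟩
  · simp [uh, U, W, ee, gb_zero_right]
  · simp [rh, R]
  · rw [hu1, hr1]
    field_simp
    ring
  · rw [hr1]
    field_simp
  · intro n
    rw [uh_eq q Z (le_refl (n + 2 + 1)), uh_eq q Z (by omega : n + 1 + 1 ≤ n + 2 + 1),
      uh_eq q Z (by omega : n + 1 ≤ n + 2 + 1), rh_eq q Z (by omega : n + 1 + 1 ≤ n + 2 + 1),
      rh_eq q Z (le_refl (n + 2 + 1)), mul_sum, mul_sum, mul_sum, mul_sum, mul_sum,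
      ← sum_add_distrib, ← sum_sub_distrib, ← sum_add_distrib]
    refine sum_congr rfl fun k _ => ?_
    linear_combination (W q k * ee q Z k) * coef3 hq h n k
  · intro n
    have hZ : ∀ k, Z * ee q Z k = (q ^ (2 * k + 2))⁻¹ * (1 - q ^ (k + 1)) ^ 2 * ee q Z (k + 1) +
        (q ^ (k + 1))⁻¹ * (1 + q ^ (2 * k + 1)) * ee q Z k := by
      intro k
      have e1 := ee_succ h Z k
      have h5 := pow_ne_zero k hq
      rw [mul_assoc, e1, show 2 * k + 2 = k + k + 2 by ring, show 2 * k + 1 = k + k + 1 by ring]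
      simp only [pow_add, pow_one]
      generalize q ^ k = A at *
      field_simp
      ring
    have e1 : (1 + q ^ (n + 1)) * Z * (uh q Z n - q * uh q Z (n + 1)) =
        2 * (1 + q ^ n) * uh q Z n - 2 * (1 + q ^ (n + 2)) * uh q Z (n + 1) + rh q Z n -
          q * rh q Z (n + 2) := by
      rw [uh_eq q Z (by omega : n + 1 + 1 ≤ n + 2 + 1),
        uh_eq q Z (by omega : n + 1 ≤ n + 2 + 1), rh_eq q Z (by omega : n + 1 ≤ n + 2 + 1),
        rh_eq q Z (le_refl (n + 2 + 1))]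
      have e2 : ∑ k ∈ range (n + 2 + 1), U q n k * (W q k * ee q Z k) -
          q * ∑ k ∈ range (n + 2 + 1), U q (n + 1) k * (W q k * ee q Z k) =
          ∑ k ∈ range (n + 2 + 1), (U q n k - q * U q (n + 1) k) * W q k * ee q Z k := by
        rw [mul_sum, ← sum_sub_distrib]
        exact sum_congr rfl fun k _ => by ring
      have e3 : Z * ∑ k ∈ range (n + 2 + 1), (U q n k - q * U q (n + 1) k) * W q k * ee q Z k =
          ∑ k ∈ range (n + 2), (U q n k - q * U q (n + 1) k) * W q k *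
            ((q ^ (2 * k + 2))⁻¹ * (1 - q ^ (k + 1)) ^ 2) * ee q Z (k + 1) +
          ∑ k ∈ range (n + 2 + 1), (U q n k - q * U q (n + 1) k) * W q k *
            ((q ^ (k + 1))⁻¹ * (1 + q ^ (2 * k + 1))) * ee q Z k := by
        have : ∀ N, Z * ∑ k ∈ range N, (U q n k - q * U q (n + 1) k) * W q k * ee q Z k =
            ∑ k ∈ range N, (U q n k - q * U q (n + 1) k) * W q k *
              ((q ^ (2 * k + 2))⁻¹ * (1 - q ^ (k + 1)) ^ 2) * ee q Z (k + 1) +
            ∑ k ∈ range N, (U q n k - q * U q (n + 1) k) * W q k *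
              ((q ^ (k + 1))⁻¹ * (1 + q ^ (2 * k + 1))) * ee q Z k := by
          intro N
          rw [mul_sum, ← sum_add_distrib]
          refine sum_congr rfl fun k _ => ?_
          linear_combination ((U q n k - q * U q (n + 1) k) * W q k) * hZ k
        rw [this]
        congr 1
        rw [sum_range_succ, U_of_lt q (by omega : n < n + 2), U_of_lt q (by omega : n + 1 < n + 2)]
        ring
      rw [mul_assoc, e2, e3, sum_range_succ' _ (n + 2), sum_range_succ' _ (n + 2),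
        sum_range_succ' _ (n + 2), sum_range_succ' _ (n + 2), sum_range_succ' _ (n + 2)]
      have e4 := coef0 hq n
      have e5 : ∀ k, (1 + q ^ (n + 1)) * ((U q n k - q * U q (n + 1) k) * W q k *
            ((q ^ (2 * k + 2))⁻¹ * (1 - q ^ (k + 1)) ^ 2) * ee q Z (k + 1) +
          (U q n (k + 1) - q * U q (n + 1) (k + 1)) * W q (k + 1) *
            ((q ^ (k + 1 + 1))⁻¹ * (1 + q ^ (2 * (k + 1) + 1))) * ee q Z (k + 1)) =
          2 * (1 + q ^ n) * (U q n (k + 1) * (W q (k + 1) * ee q Z (k + 1))) -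
          2 * (1 + q ^ (n + 2)) * (U q (n + 1) (k + 1) * (W q (k + 1) * ee q Z (k + 1))) +
          R q n (k + 1) * (W q (k + 1) * ee q Z (k + 1)) -
          q * (R q (n + 2) (k + 1) * (W q (k + 1) * ee q Z (k + 1))) := by
        intro k
        rw [W_succ]
        linear_combination (W q k * ee q Z (k + 1)) * coef1 hq h n k
      have e6 : (1 + q ^ (n + 1)) * (∑ k ∈ range (n + 2), (U q n k - q * U q (n + 1) k) * W q k *
            ((q ^ (2 * k + 2))⁻¹ * (1 - q ^ (k + 1)) ^ 2) * ee q Z (k + 1) +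
          ∑ k ∈ range (n + 2), (U q n (k + 1) - q * U q (n + 1) (k + 1)) * W q (k + 1) *
            ((q ^ (k + 1 + 1))⁻¹ * (1 + q ^ (2 * (k + 1) + 1))) * ee q Z (k + 1)) =
          2 * (1 + q ^ n) * ∑ k ∈ range (n + 2), U q n (k + 1) * (W q (k + 1) * ee q Z (k + 1)) -
          2 * (1 + q ^ (n + 2)) * ∑ k ∈ range (n + 2), U q (n + 1) (k + 1) * (W q (k + 1) * ee q Z (k + 1)) +
          ∑ k ∈ range (n + 2), R q n (k + 1) * (W q (k + 1) * ee q Z (k + 1)) -
          q * ∑ k ∈ range (n + 2), R q (n + 2) (k + 1) * (W q (k + 1) * ee q Z (k + 1)) := by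
        rw [← sum_add_distrib, mul_sum, mul_sum, mul_sum, mul_sum, ← sum_sub_distrib,
          ← sum_add_distrib, ← sum_sub_distrib]
        exact sum_congr rfl fun k _ => e5 k
      simp only [mul_zero, zero_add, pow_one] at e4 ⊢
      linear_combination e6 + (W q 0 * ee q Z 0) * e4
    linear_combination e1

end Pool.Agent.Q281.Del
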