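import Pool.Agent.Q281.Del.Int

/-!
# A q-congruence for sums of products of q-Delannoy numbers

For an odd prime `p` and `m ≥ 1`, with `S_p(m) = ∑_{j < p} [2j+1] q^{-j} D_q(m,j) D_{1/q}(m,j)`:
`S_p(m) ≡ q (1 - q^{-2m}) / (1 - q^2)`, `q (1 - q^{2m+2}) / (1 - q^2)`, `0` modulo `[p]^2` in
`ℤ[q, 1/q]` if `p ∣ m`, `p ∣ m + 1`, `p ∤ m (m+1)` respectively.

Outline.  With `X = q^m` the numbers `D_q(m,n)` and `(-1)^n q^{-n} D_{1/q}(m,n)` satisfy three-term
recurrences in `n` with parameters `X` and `1/(qX)`.  From these one obtains, by a simultaneous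
induction for the product and one mixed product, the new expansion
`D_q(m,n) D_{1/q}(m,n) = ∑_k q^{k^2-mk-nk} (-1;q)_k (-q;q)_k [n+k, 2k] [m, k] [m+k, k]`.
The sum over `n < p` telescopes for every `k`; the terms with `k ≤ p - 2` are divisible by `[p]^2`
and the term with `k = p - 1` is evaluated modulo `[p]^2`.
-/

set_option autoImplicit false

namespace Pool.Agent.Q281.Del.QDelannoyCongruence

open Polynomial

/-- The variable `q` of the field `ℚ(q)`. -/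
noncomputable abbrev q : RatFunc ℚ := RatFunc.X

/-- `[n] = 1 + q + ⋯ + q^(n-1)`. -/
noncomputable def qint (n : ℕ) : RatFunc ℚ := ∑ i ∈ Finset.range n, q ^ i

/-- The Gaussian binomial coefficient with base `b`: the product over `i = 1, …, k` of
`(1 - b^(n-i+1)) / (1 - b^i)` (it is `0` for `n < k`, as the factor `i = n + 1` vanishes). -/
noncomputable def gauss (b : RatFunc ℚ) (n k : ℕ) : RatFunc ℚ :=
  ∏ i ∈ Finset.range k, (1 - b ^ (n - i)) / (1 - b ^ (i + 1))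

/-- `D_b(m,n) = ∑_{j=0}^n b^(j(j-1)/2) [n, j] [m+n-j, n]`, the binomials with base `b`. -/
noncomputable def delannoy (b : RatFunc ℚ) (m n : ℕ) : RatFunc ℚ :=
  ∑ j ∈ Finset.range (n + 1), b ^ (j * (j - 1) / 2) * gauss b n j * gauss b (m + n - j) n

/-- `S_p(m) = ∑_{j=0}^{p-1} [2j+1] q^(-j) D_q(m,j) D_{1/q}(m,j)`. -/
noncomputable def S (p m : ℕ) : RatFunc ℚ :=
  ∑ j ∈ Finset.range p, qint (2 * j + 1) * (q ^ j)⁻¹ * (delannoy q m j * delannoy q⁻¹ m j)

/-- `A ≡ B (mod [p]^2)` in `ℤ[q, 1/q]`: `A - B = [p]^2 g(q) / q^N` with an integer polynomial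
`g`. -/
def CongrSq (p : ℕ) (A B : RatFunc ℚ) : Prop :=
  ∃ (g : Polynomial ℤ) (N : ℕ), A - B = qint p ^ 2 * (aeval q g / q ^ N)

theorem ev_eq (g : Polynomial ℤ) : Pool.Agent.Q281.Del.ev g = aeval q g := by
  have h : Pool.Agent.Q281.Del.ev = (aeval q : Polynomial ℤ →ₐ[ℤ] RatFunc ℚ).toRingHom := by
    refine Polynomial.ringHom_ext (fun a => ?_) ?_
    · simp
    · rw [Pool.Agent.Q281.Del.ev_X]
      simp
  rw [h]
  rfl

/-- The congruence for `S_p(m)`, for every odd prime `p` and every positive integer `m`. -/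
theorem result (p : ℕ) (hp : p.Prime) (hodd : p ≠ 2) (m : ℕ) (hm : 0 < m) :
    (p ∣ m → CongrSq p (S p m) (q * ((1 - (q ^ (2 * m))⁻¹) / (1 - q ^ 2)))) ∧
    (p ∣ m + 1 → CongrSq p (S p m) (q * ((1 - q ^ (2 * m + 2)) / (1 - q ^ 2)))) ∧
    (¬ p ∣ m * (m + 1) → CongrSq p (S p m) 0) := by
  obtain ⟨h1, h2, h3⟩ := Pool.Agent.Q281.Del.main hp hodd hm
  refine ⟨fun h => ?_, fun h => ?_, fun h => ?_⟩
  · obtain ⟨g, N, e⟩ := h1 h
    exact ⟨g, N, by rw [← ev_eq, ← mul_div_assoc]; exact e⟩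
  · obtain ⟨g, N, e⟩ := h2 h
    exact ⟨g, N, by rw [← ev_eq, ← mul_div_assoc]; exact e⟩
  · obtain ⟨g, N, e⟩ := h3 (fun h' => h (h'.mul_right _)) (fun h' => h (h'.mul_left _))
    exact ⟨g, N, by rw [← ev_eq]; exact e⟩

end Pool.Agent.Q281.Del.QDelannoyCongruence
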