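import Pool.Agent.Q281.Del.Prod

set_option autoImplicit false

/-!
# The sum as a sum of `p` terms with known factors
-/

namespace Pool.Agent.Q281.Del

open Finset

variable {K : Type*} [Field K]

theorem ladder {b : K} (h : NR b) (M c : ℕ) :
    gb b (M + 1) c * (1 - b ^ (M + 1 - c)) = gb b M c * (1 - b ^ (M + 1)) := by
  rcases lt_trichotomy (M + 1) c with h1 | h1 | h1
  · rw [gb_of_lt b h1, gb_of_lt b (by omega : M < c)]
    ring
  · rw [← h1, gb_of_lt b (by omega : M < M + 1)]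
    simp
  · obtain ⟨l, rfl⟩ : ∃ l, M = l + c := ⟨M - c, by omega⟩
    rw [show l + c + 1 = l + 1 + c by ring, gb_add h, gb_add h, show l + 1 + c = l + c + 1 by ring,
      ph_succ, ph_succ, show l + c + 1 - c = l + 1 by omega]
    have h1 := ph_ne h l
    have h2 := ph_ne h c
    have h3 := h.sub l
    field_simp

theorem gb_succ_right (b : K) (n k : ℕ) :
    gb b n (k + 1) = gb b n k * ((1 - b ^ (n - k)) / (1 - b ^ (k + 1))) := by
  rw [gb, prod_range_succ, gb]

theorem rec_D {q : K} (h : NR q) (m : ℕ) : Rec q (q ^ m) (fun n => D q m n) :=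
  ⟨D_zero q m, D_one h m, fun n => D_rec h m n⟩

theorem rec_D' {q : K} (hq : q ≠ 0) (h : NR q⁻¹) (m : ℕ) :
    Rec q (q ^ (m + 1))⁻¹ (fun n => (-1) ^ n * (q ^ n)⁻¹ * D q⁻¹ m n) := by
  refine ⟨by simp [D_zero], ?_, fun n => ?_⟩
  · have h1 := D_one h m
    have h2 := pow_ne_zero m hq
    simp only [pow_one, inv_pow] at h1 ⊢
    have e : (1 - q⁻¹) * D q⁻¹ m 1 = 2 - (q ^ m)⁻¹ * (1 + q⁻¹) := h1
    rw [pow_succ]
    field_simp at e ⊢
    linear_combination e
  · have h1 := D_rec h m n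
    have h2 := pow_ne_zero m hq
    have h3 := pow_ne_zero n hq
    simp only [inv_pow] at h1 ⊢
    rw [show q ^ (n + 2) = q ^ 2 * q ^ n by ring, show q ^ (n + 1) = q * q ^ n by ring] at h1 ⊢
    rw [show q ^ (m + 1) = q * q ^ m by ring, show (-1 : K) ^ (n + 2) = (-1) ^ n by ring,
      show (-1 : K) ^ (n + 1) = -(-1) ^ n by ring]
    generalize D q⁻¹ m (n + 2) = a2 at *
    generalize D q⁻¹ m (n + 1) = a1 at *
    generalize D q⁻¹ m n = a0 at *
    generalize (-1 : K) ^ n = s at *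
    generalize q ^ m = X at *
    generalize q ^ n = P at *
    have h4 : (1 - (q ^ 2 * P)⁻¹) * a2 - ((1 + (q * P)⁻¹ - X⁻¹ * (1 + (q ^ 2 * P)⁻¹)) * a1 +
      X⁻¹ * (1 - (q * P)⁻¹) * a0) = 0 := by linear_combination h1
    have h5 : (1 - q ^ 2 * P) * (s * (q ^ 2 * P)⁻¹ * a2) - ((1 + q * P - (q * X)⁻¹ *
        (1 + q ^ 2 * P)) * (-s * (q * P)⁻¹ * a1) + (q * X)⁻¹ * (1 - q * P) * (s * P⁻¹ * a0)) =
        -s * ((1 - (q ^ 2 * P)⁻¹) * a2 - ((1 + (q * P)⁻¹ - X⁻¹ * (1 + (q ^ 2 * P)⁻¹)) * a1 +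
      X⁻¹ * (1 - (q * P)⁻¹) * a0)) := by
      field_simp
      ring
    rw [h4, mul_zero] at h5
    linear_combination h5

/-- The product formula. -/
theorem prod_formula {q : K} (hq : q ≠ 0) (h : NR q) (h' : NR q⁻¹) (m n : ℕ) :
    D q m n * D q⁻¹ m n = (-1) ^ n * q ^ n * uh q (q ^ m + (q ^ (m + 1))⁻¹) n := by
  have hXY : q * (q ^ m * (q ^ (m + 1))⁻¹) = 1 := by
    rw [pow_succ]
    have := pow_ne_zero m hq
    field_simp
  have h1 := (Sys.unique hq h (sys_of_rec hXY (rec_D h m) (rec_D' hq h' m))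
    (sys_uh hq h (q ^ m + (q ^ (m + 1))⁻¹)) n).1
  rw [← h1]
  have h2 := pow_ne_zero n hq
  have h3 : ((-1 : K) ^ n) * (-1) ^ n = 1 := by rw [← mul_pow]; simp
  generalize D q⁻¹ m n = d'
  generalize D q m n = d
  field_simp
  linear_combination (-(d * d')) * h3

theorem ee_eq {q : K} (hq : q ≠ 0) (h : NR q) (m k : ℕ) :
    ee q (q ^ m + (q ^ (m + 1))⁻¹) k =
      q ^ (k ^ 2) * (q ^ (m * k))⁻¹ * (gb q m k * gb q (m + k) k) := by
  induction k with
  | zero => simp [ee, gb_zero_right]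
  | succ k ih =>
    have h1 := ee_succ h (q ^ m + (q ^ (m + 1))⁻¹) k
    have h0 := h.sub k
    refine mul_left_cancel₀ (pow_ne_zero 2 h0) ?_
    rw [h1, ih]
    rcases le_or_gt k m with hk | hk
    · obtain ⟨l, rfl⟩ := Nat.exists_eq_add_of_le hk
      have e1 := gb_succ_right q (k + l) k
      have e2 : gb q (k + l + (k + 1)) (k + 1) * (1 - q ^ (k + 1)) =
          gb q (k + l + k) k * (1 - q ^ (k + l + k + 1)) := by
        rw [gb_add h, gb_add h, show k + l + (k + 1) = k + l + k + 1 by ring, ph_succ, ph_succ]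
        have h2 := ph_ne h (k + l)
        have h3 := ph_ne h k
        field_simp
      rw [e1, show k + l - k = l by omega]
      have e3 : (1 - q ^ (k + 1)) ^ 2 * (q ^ (k + 1) ^ 2 * (q ^ ((k + l) * (k + 1)))⁻¹ *
          (gb q (k + l) k * ((1 - q ^ l) / (1 - q ^ (k + 1))) *
            gb q (k + l + (k + 1)) (k + 1))) =
          q ^ (k + 1) ^ 2 * (q ^ ((k + l) * (k + 1)))⁻¹ *
          (gb q (k + l) k * (1 - q ^ l) * (gb q (k + l + (k + 1)) (k + 1) * (1 - q ^ (k + 1)))) := by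
        field_simp
      rw [e3, e2, show (k + 1) ^ 2 = k ^ 2 + (2 * k + 1) by ring,
        show (k + l) * (k + 1) = (k + l) * k + (k + l) by ring, pow_add q (k ^ 2),
        pow_add q ((k + l) * k)]
      have h5 := pow_ne_zero k hq
      have h6 := pow_ne_zero l hq
      have h7 := pow_ne_zero ((k + l) * k) hq
      have h8 := pow_ne_zero (k ^ 2) hq
      generalize q ^ ((k + l) * k) = w at *
      generalize q ^ (k ^ 2) = v at *
      generalize gb q (k + l) k = g1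
      generalize gb q (k + l + k) k = g2
      rw [show q ^ (k + l) = q ^ k * q ^ l by ring, show q ^ (k + l + 1) = q * q ^ k * q ^ l by ring,
        show q ^ (k + 1) = q * q ^ k by ring, show q ^ (2 * k + 1) = q * q ^ k * q ^ k by ring,
        show q ^ (k + l + k + 1) = q * q ^ k * q ^ k * q ^ l by ring]
      generalize q ^ k = A at *
      generalize q ^ l = L at *
      field_simp
      ring
    · rw [gb_of_lt q hk, gb_of_lt q (by omega : m < k + 1)]
      ring

theorem tele {q : K} (hq : q ≠ 0) (h : NR q) (k N : ℕ) :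
    (1 - q ^ (k + 1)) * ∑ j ∈ range N, (1 - q ^ (2 * j + 1)) * (q ^ (j * (k + 1)))⁻¹ *
      gb q (j + k) (2 * k) =
    q ^ (k + 1) * (q ^ (N * (k + 1)))⁻¹ * ((1 - q ^ N) * (gb q (N + k) (2 * k) * (1 - q ^ (N - k)))) := by
  induction N with
  | zero => simp
  | succ N ih =>
    rw [sum_range_succ, mul_add, ih]
    have e1 := ladder h (N + k) (2 * k)
    rw [show N + k + 1 - 2 * k = N + 1 - k by omega] at e1
    rw [show N + 1 + k = N + k + 1 by ring, e1,
      show (N + 1) * (k + 1) = N * (k + 1) + (k + 1) by ring, pow_add q (N * (k + 1)) (k + 1)]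
    have h7 := pow_ne_zero (N * (k + 1)) hq
    generalize q ^ (N * (k + 1)) = w at *
    rcases le_or_gt k N with hk | hk
    · obtain ⟨l, rfl⟩ := Nat.exists_eq_add_of_le hk
      generalize gb q (k + l + k) (2 * k) = g
      rw [show k + l - k = l by omega, show q ^ (k + l) = q ^ k * q ^ l by ring,
        show q ^ (k + l + 1) = q * q ^ k * q ^ l by ring,
        show q ^ (k + 1) = q * q ^ k by ring,
        show q ^ (2 * (k + l) + 1) = q * (q ^ k) ^ 2 * (q ^ l) ^ 2 by ring,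
        show q ^ (k + l + k + 1) = q * q ^ k * q ^ k * q ^ l by ring]
      have h5 := pow_ne_zero k hq
      generalize q ^ k = A at *
      generalize q ^ l = L at *
      field_simp
      ring
    · rw [gb_of_lt q (by omega : N + k < 2 * k)]
      ring

theorem sum_formula {q : K} (hq : q ≠ 0) (h : NR q) (h' : NR q⁻¹) (m p : ℕ) :
    ∑ j ∈ range p, (1 - q ^ (2 * j + 1)) * ((q ^ j)⁻¹ * (D q m j * D q⁻¹ m j)) =
      ∑ k ∈ range p, W q k * (q ^ (k ^ 2) * (q ^ (m * k))⁻¹ * (gb q m k * gb q (m + k) k)) *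
        (q ^ (k + 1) * (q ^ (p * (k + 1)))⁻¹ * ((1 - q ^ p) * (gb q (p + k) (2 * k) *
          (1 - q ^ (p - k)))) / (1 - q ^ (k + 1))) := by
  have e1 : ∀ j ∈ range p, (1 - q ^ (2 * j + 1)) * ((q ^ j)⁻¹ * (D q m j * D q⁻¹ m j)) =
      ∑ k ∈ range p, W q k * (q ^ (k ^ 2) * (q ^ (m * k))⁻¹ * (gb q m k * gb q (m + k) k)) *
        ((1 - q ^ (2 * j + 1)) * (q ^ (j * (k + 1)))⁻¹ * gb q (j + k) (2 * k)) := by
    intro j hj
    have hj' := mem_range.1 hj
    rw [prod_formula hq h h', uh_eq q _ (by omega : j + 1 ≤ p)]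
    have h2 := pow_ne_zero j hq
    rw [show (1 - q ^ (2 * j + 1)) * ((q ^ j)⁻¹ * ((-1) ^ j * q ^ j *
        ∑ k ∈ range p, U q j k * (W q k * ee q (q ^ m + (q ^ (m + 1))⁻¹) k))) =
        (1 - q ^ (2 * j + 1)) * (-1) ^ j *
        ∑ k ∈ range p, U q j k * (W q k * ee q (q ^ m + (q ^ (m + 1))⁻¹) k) by field_simp, mul_sum]
    refine sum_congr rfl fun k _ => ?_
    rw [ee_eq hq h, U]
    have h3 : ((-1 : K) ^ j) * (-1) ^ j = 1 := by rw [← mul_pow]; simp
    linear_combination ((1 - q ^ (2 * j + 1)) * ((q ^ (j * (k + 1)))⁻¹ * gb q (j + k) (2 * k)) *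
      (W q k * (q ^ (k ^ 2) * (q ^ (m * k))⁻¹ * (gb q m k * gb q (m + k) k)))) * h3
  rw [sum_congr rfl e1, sum_comm]
  refine sum_congr rfl fun k _ => ?_
  rw [← mul_sum]
  congr 1
  rw [eq_div_iff (h.sub k), mul_comm]
  exact tele hq h k p

end Pool.Agent.Q281.Del
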